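import Pool.Agent.Helper52.KP.StF
import Pool.Agent.Helper52.KP.StW

/-!
# Project KP, module FF4
-/

set_option autoImplicit false

namespace Pool.Agent.Helper36.KP

open Pool.Agent.Helper67.NO Pool.Agent.Helper52.KP MeasureTheory Filter
open scoped ContDiff ComplexOrder Topology

universe u

/-- derivative of the value of a polynomial -/
theorem hasFDerivAt_ev {m : ℕ} (P : MvPolynomial (Fin m) ℂ) (z : Fin m → ℂ) :
    HasFDerivAt (fun x : Fin m → ℂ => ev P x)
      (∑ k, ev (MvPolynomial.pderiv k P) z •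
        (ContinuousLinearMap.proj k : (Fin m → ℂ) →L[ℂ] ℂ)) z := by
  induction P using MvPolynomial.induction_on with
  | C a =>
    have h : (fun x : Fin m → ℂ => ev (MvPolynomial.C a) x) = fun _ => a := by
      funext x; simp [ev]
    rw [h]
    have h0 : (∑ k, ev (MvPolynomial.pderiv k (MvPolynomial.C a)) z •
        (ContinuousLinearMap.proj k : (Fin m → ℂ) →L[ℂ] ℂ)) = 0 := by
      apply Finset.sum_eq_zero
      intro k _
      have hk : ev (MvPolynomial.pderiv k (MvPolynomial.C a)) z = 0 := by simp [ev]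
      rw [hk]
      exact zero_smul ℂ (ContinuousLinearMap.proj k : (Fin m → ℂ) →L[ℂ] ℂ)
    rw [h0]
    exact hasFDerivAt_const a z
  | add p q hp hq =>
    have h : (fun x : Fin m → ℂ => ev (p + q) x) = fun x => ev p x + ev q x := by
      funext x; simp [ev]
    rw [h]
    refine (hp.add hq).congr_fderiv ?_
    rw [← Finset.sum_add_distrib]
    apply Finset.sum_congr rfl
    intro k _
    have hk : ev (MvPolynomial.pderiv k (p + q)) z =
        ev (MvPolynomial.pderiv k p) z + ev (MvPolynomial.pderiv k q) z := by simp [ev]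
    rw [hk]
    exact (add_smul _ _ _).symm
  | mul_X p i hp =>
    have h : (fun x : Fin m → ℂ => ev (p * MvPolynomial.X i) x) = fun x => ev p x * x i := by
      funext x; simp [ev]
    rw [h]
    have hi : HasFDerivAt (fun x : Fin m → ℂ => x i)
      (ContinuousLinearMap.proj i : (Fin m → ℂ) →L[ℂ] ℂ) z := hasFDerivAt_apply i z
    refine (hp.mul hi).congr_fderiv ?_
    ext v
    simp only [ev, Derivation.leibniz, MvPolynomial.pderiv_X, smul_eq_mul, map_add, map_mul,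
      MvPolynomial.eval_X, add_apply, smul_apply,
      sum_apply, ContinuousLinearMap.proj_apply]
    simp only [add_mul, Finset.sum_add_distrib, Finset.mul_sum]
    congr 1
    · rw [Finset.sum_eq_single i]
      · simp
      · intro b _ hb
        simp [hb.symm]
      · intro h; exact absurd (Finset.mem_univ i) h
    · apply Finset.sum_congr rfl
      intro k _
      ring

theorem dz_ev {m : ℕ} (P : MvPolynomial (Fin m) ℂ) (z : Fin m → ℂ) (j : Fin m) :
    dz j (fun z => MvPolynomial.eval z P) z = ev (MvPolynomial.pderiv j P) z := by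
  have h := hasFDerivAt_ev P z
  have hR : fderiv ℝ (fun z => MvPolynomial.eval z P) z = (∑ k, ev (MvPolynomial.pderiv k P) z •
      (ContinuousLinearMap.proj k : (Fin m → ℂ) →L[ℂ] ℂ)).restrictScalars ℝ :=
    (h.restrictScalars ℝ).fderiv
  have e : ∀ c : ℂ, ((∑ k, ev (MvPolynomial.pderiv k P) z •
      (ContinuousLinearMap.proj k : (Fin m → ℂ) →L[ℂ] ℂ)).restrictScalars ℝ) (Pi.single j c)
      = ev (MvPolynomial.pderiv j P) z * c := by
    intro c
    rw [ContinuousLinearMap.coe_restrictScalars']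
    simp only [sum_apply, smul_apply, ContinuousLinearMap.proj_apply, smul_eq_mul]
    rw [Finset.sum_eq_single j]
    · simp
    · intro b _ hb
      simp [hb]
    · intro h; exact absurd (Finset.mem_univ j) h
  unfold dz
  rw [hR, e, e]
  linear_combination (-(ev (MvPolynomial.pderiv j P) z) / 2) * Complex.I_mul_I

theorem dz_congr {m : ℕ} {f f' : (Fin m → ℂ) → ℂ} {z : Fin m → ℂ} (h : f =ᶠ[𝓝 z] f')
    (j : Fin m) : dz j f z = dz j f' z := by
  unfold dz
  rw [h.fderiv_eq]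

section

variable {g : Type u} [LieRing g] [LieAlgebra ℂ g] [FiniteDimensional ℂ g] {x₀ : g}

theorem sz_eq (C : Ch x₀) (ρ : g → ℝ) (y : Fin C.m → (g →ₗ[ℂ] ℂ)) (rd : ℕ) (z : Fin C.m → ℂ) :
    (mkCone C ρ y rd).sz z = size (C.Φ z) := by
  show ∑ i, ‖ev (C.pol i) z‖ = ∑ i, ‖(Module.finBasis ℂ g).repr (C.Φ z) i‖
  refine Finset.sum_congr rfl fun i _ => ?_
  rw [← show co (C.Φ z) i = ev (C.pol i) z from C.pol_spec i z]
  rfl

theorem adm_eval (C : Ch x₀) (z : Fin C.m → ℂ) : C.adm.map (MvPolynomial.eval z) =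
    LinearMap.toMatrix (Module.finBasis ℂ g) (Module.finBasis ℂ g)
      (LieAlgebra.ad ℂ g (C.Φ z) : g →ₗ[ℂ] g) := by
  have h1 : (LieAlgebra.ad ℂ g (C.Φ z) : g →ₗ[ℂ] g) = ∑ l, co (C.Φ z) l •
      (LieAlgebra.ad ℂ g (Module.finBasis ℂ g l) : g →ₗ[ℂ] g) := by
    conv_lhs => rw [← (Module.finBasis ℂ g).sum_repr (C.Φ z)]
    rw [map_sum]
    exact Finset.sum_congr rfl fun l _ => map_smul _ _ _
  rw [h1, map_sum]
  ext i j
  rw [Matrix.map_apply, Ch.adm, Matrix.sum_apply, Matrix.sum_apply, map_sum]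
  refine Finset.sum_congr rfl fun l _ => ?_
  rw [Matrix.smul_apply, Matrix.map_apply, smul_eq_mul, map_mul, MvPolynomial.eval_C, map_smul,
    Matrix.smul_apply, smul_eq_mul, C.pol_spec]

theorem min_eval (C : Ch x₀) (z : Fin C.m → ℂ)
    (ab : (Fin C.m → Fin (Module.finrank ℂ g)) × (Fin C.m → Fin (Module.finrank ℂ g))) :
    MvPolynomial.eval z (C.min ab) = mnr ab.1 ab.2 (C.Φ z) := by
  unfold Ch.min mnr
  rw [RingHom.map_det, ← adm_eval]
  rfl

theorem sumQ (C : Ch x₀) (ρ : g → ℝ) (y : Fin C.m → (g →ₗ[ℂ] ℂ)) (rd : ℕ) (z : Fin C.m → ℂ) :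
    ∑ i, ‖ev ((mkCone C ρ y rd).Q i) z‖ = mns C.m (C.Φ z) := by
  unfold mns
  set F : (Fin C.m → Fin (Module.finrank ℂ g)) × (Fin C.m → Fin (Module.finrank ℂ g)) → ℝ :=
    fun ab => ‖mnr ab.1 ab.2 (C.Φ z)‖ with hF
  have h2 : ∑ i, ‖ev ((mkCone C ρ y rd).Q i) z‖ = ∑ i, F ((Fintype.equivFin _).symm i) := by
    refine Finset.sum_congr rfl fun i _ => ?_
    show ‖MvPolynomial.eval z (C.min _)‖ = _
    rw [min_eval]
  rw [h2, Equiv.sum_comp (Fintype.equivFin ((Fin C.m → Fin (Module.finrank ℂ g)) ×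
    (Fin C.m → Fin (Module.finrank ℂ g)))).symm F, Fintype.sum_prod_type]

end

theorem hFF4 (hEXL : StEXL.{u}) (hGRC : StGRC.{u}) (hCPC : StCPC.{u}) (hHPO : StHPO.{u})
    (hNUL : StNUL) : StFF4.{u} := by
  intro g _ _ _ _ x₀ hx₀ hnil ρ hρ C y rd hD K hK
  subst hK
  have hUeq : (mkCone C ρ y rd).U = {z | MvPolynomial.eval z C.Δ ≠ 0} := rfl
  have hUo : IsOpen {z : Fin C.m → ℂ | MvPolynomial.eval z C.Δ ≠ 0} := by
    have h1 : Continuous fun z : Fin C.m → ℂ => MvPolynomial.eval z C.Δ :=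
      MvPolynomial.continuous_eval _
    exact isOpen_ne_fun h1 continuous_const
  have hUd : Dense {z : Fin C.m → ℂ | MvPolynomial.eval z C.Δ ≠ 0} := by
    refine Measure.dense_of_ae (μ := (volume : Measure (Fin C.m → ℂ))) ?_
    rw [ae_iff]
    have h1 := hNUL C.m C.Δ C.Δ0
    simpa using h1
  -- functions on the orbit in the chart
  have hpol : ∀ k, ∀ f ∈ Hol x₀ k, ∃ P ∈ C.RR k, ∀ z, MvPolynomial.eval z C.Δ ≠ 0 →
      MvPolynomial.eval z P = ext f (C.Φ z) := by
    intro k f hf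
    obtain ⟨P, hP, -⟩ := hHPO g x₀ hx₀ hnil C k f hf (hD.bdd k f hf)
    exact ⟨P, ⟨f, hf, hP⟩, hP⟩
  have hp1 : ∀ z, MvPolynomial.eval z C.Δ ≠ 0 → MvPolynomial.eval z C.P₁ = ext C.p₁ (C.Φ z) := by
    have h1 : ∃ P : MvPolynomial (Fin C.m) ℂ, ∀ z, MvPolynomial.eval z C.Δ ≠ 0 →
        MvPolynomial.eval z P = ext C.p₁ (C.Φ z) := by
      obtain ⟨P, -, hP⟩ := hpol _ _ C.p1mem
      exact ⟨P, hP⟩
    have h2 : C.P₁ = h1.choose := dif_pos h1
    rw [h2]
    exact h1.choose_spec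
  have hset : ∀ r δ : ℝ, {z | z ∈ (mkCone C ρ y rd).U ∧ (mkCone C ρ y rd).sz z ≤ r ∧
      δ ≤ ∑ i, ‖ev ((mkCone C ρ y rd).Q i) z‖} =
      {z | MvPolynomial.eval z C.Δ ≠ 0 ∧ size (C.Φ z) ≤ r ∧ δ ≤ mns C.m (C.Φ z)} := by
    intro r δ
    ext z
    have h1 := sz_eq C ρ y rd z
    have h2 := sumQ C ρ y rd z
    constructor
    · rintro ⟨ha, hb, hc⟩
      exact ⟨ha, by rw [← h1]; exact hb, by rw [← h2]; exact hc⟩
    · rintro ⟨ha, hb, hc⟩
      exact ⟨ha, by rw [h1]; exact hb, by rw [h2]; exact hc⟩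
  have hextl : ∀ (k : ℕ) (h : (Fin C.m → ℂ) → ℂ),
      DifferentiableOn ℂ h {z | MvPolynomial.eval z C.Δ ≠ 0} →
      (∀ (c : ℂ), ‖c‖ = 1 → ∀ z, MvPolynomial.eval z C.Δ ≠ 0 →
        h (scl C.w c z) = c ^ (k + C.jd) * h z) →
      (∀ r δ : ℝ, 0 < δ → IntegrableOn (fun z => ‖h z‖ ^ 2)
        {z | MvPolynomial.eval z C.Δ ≠ 0 ∧ size (C.Φ z) ≤ r ∧ δ ≤ mns C.m (C.Φ z)}) →
      ∃ f ∈ C.RR k, ∀ z, MvPolynomial.eval z C.Δ ≠ 0 →
        h z = MvPolynomial.eval z f * MvPolynomial.eval z C.J := by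
    intro k h h1 h2 h3
    obtain ⟨f, hf, hfe⟩ := hEXL g x₀ hx₀ hnil C k h h1 h2 h3
    obtain ⟨P, hP, hPe⟩ := hpol k f hf
    exact ⟨P, hP, fun z hz => by rw [hfe z hz, hPe z hz]⟩
  refine ⟨?_, ?_, ?_, ?_⟩
  · intro k h h1 h2 h3
    exact hextl k h h1 h2 fun r δ hδ => by
      have h4 := h3 r δ hδ
      rw [hset] at h4
      exact h4
  · intro k h hh h2 h3
    obtain ⟨b, hb⟩ := h3
    have hcont : ∀ P : MvPolynomial (Fin C.m) ℂ, Continuous fun z : Fin C.m → ℂ =>
        MvPolynomial.eval z P := fun P => MvPolynomial.continuous_eval _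
    obtain ⟨f, hf, hfe⟩ := hextl k h hh.differentiableOn (fun c hc z _ => h2 c z hc)
      fun r δ hδ => by
        rw [← hset]
        have hszc : Continuous (mkCone C ρ y rd).sz := by
          show Continuous fun z : Fin C.m → ℂ => ∑ i, ‖ev (C.pol i) z‖
          exact continuous_finsetSum _ fun i _ => (hcont _).norm
        have hQc : Continuous fun z : Fin C.m → ℂ => ∑ i, ‖ev ((mkCone C ρ y rd).Q i) z‖ :=
          continuous_finsetSum _ fun i _ => (hcont _).norm
        have hms : MeasurableSet {z | z ∈ (mkCone C ρ y rd).U ∧ (mkCone C ρ y rd).sz z ≤ r ∧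
            δ ≤ ∑ i, ‖ev ((mkCone C ρ y rd).Q i) z‖} :=
          hUo.measurableSet.inter ((isClosed_le hszc continuous_const).measurableSet.inter
            (isClosed_le continuous_const hQc).measurableSet)
        have hdom : IntegrableOn (fun z => Real.exp (|b| * r) *
            (‖h z‖ ^ 2 * Real.exp (-(b * (mkCone C ρ y rd).sz z))))
            {z | z ∈ (mkCone C ρ y rd).U ∧ (mkCone C ρ y rd).sz z ≤ r ∧
            δ ≤ ∑ i, ‖ev ((mkCone C ρ y rd).Q i) z‖} := (hb.const_mul _).integrableOn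
        refine Integrable.mono' hdom ?_ ?_
        · exact (hh.continuous.norm.pow 2).aestronglyMeasurable
        · refine (ae_restrict_iff' hms).2 (Eventually.of_forall fun z hz => ?_)
          rw [Real.norm_eq_abs, abs_of_nonneg (by positivity)]
          have hs0 : 0 ≤ (mkCone C ρ y rd).sz z := by
            show 0 ≤ ∑ i, ‖ev (C.pol i) z‖
            exact Finset.sum_nonneg fun i _ => norm_nonneg _
          have h5 : 1 ≤ Real.exp (|b| * r) * Real.exp (-(b * (mkCone C ρ y rd).sz z)) := by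
            rw [← Real.exp_add]
            refine Real.one_le_exp ?_
            have h6 : b * (mkCone C ρ y rd).sz z ≤ |b| * r :=
              mul_le_mul (le_abs_self b) hz.2.1 hs0 (abs_nonneg b)
            linarith
          calc ‖h z‖ ^ 2 = 1 * ‖h z‖ ^ 2 := (one_mul _).symm
            _ ≤ (Real.exp (|b| * r) * Real.exp (-(b * (mkCone C ρ y rd).sz z))) * ‖h z‖ ^ 2 :=
              mul_le_mul_of_nonneg_right h5 (by positivity)
            _ = Real.exp (|b| * r) * (‖h z‖ ^ 2 *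
                Real.exp (-(b * (mkCone C ρ y rd).sz z))) := by ring
    refine ⟨f, hf, fun z => ?_⟩
    have h6 := Continuous.ext_on hUd hh.continuous ((hcont f).mul (hcont C.J))
      fun z hz => hfe z hz
    exact congrFun h6 z
  · intro k f hf r δ hδ
    obtain ⟨f', hf', hfe⟩ := hf
    obtain ⟨B, hB⟩ := hGRC g x₀ hx₀ hnil ρ hρ C k f' hf' r δ hδ
    refine ⟨B, fun z hz hr hq ξ => ?_⟩
    have h1 := hB z hz (by rw [← sz_eq C ρ y rd z]; exact hr) (by
      rw [← sumQ C ρ y rd z]; exact hq) ξ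
    have h2 : ∀ j, dz j (fun z => ext f' (C.Φ z)) z = ev (MvPolynomial.pderiv j f) z := by
      intro j
      refine Eq.trans ?_ (dz_ev (m := C.m) f z j)
      have h3 : (fun z => ext f' (C.Φ z)) =ᶠ[𝓝 z] fun z => MvPolynomial.eval z f := by
        filter_upwards [hUo.mem_nhds hz] with x hx
        exact (hfe x hx).symm
      exact dz_congr (m := C.m) h3 j
    simp only [h2] at h1
    exact h1
  · intro r δ hδ
    have h1 := hCPC g x₀ hx₀ hnil C r δ hδ
    have hs : {z | z ∈ (mkCone C ρ y rd).U ∧ (mkCone C ρ y rd).sz z ≤ r ∧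
        δ ≤ ‖ev (mkCone C ρ y rd).p₁ z‖ ∧ δ ≤ ∑ i, ‖ev ((mkCone C ρ y rd).Q i) z‖} =
        {z | MvPolynomial.eval z C.Δ ≠ 0 ∧ size (C.Φ z) ≤ r ∧ δ ≤ ‖ext C.p₁ (C.Φ z)‖ ∧
          δ ≤ mns C.m (C.Φ z)} := by
      ext z
      have e1 := sz_eq C ρ y rd z
      have e2 := sumQ C ρ y rd z
      constructor
      · rintro ⟨ha, hb, hc, hd⟩
        exact ⟨ha, by rw [← e1]; exact hb, by rw [← hp1 z ha]; exact hc, by rw [← e2]; exact hd⟩
      · rintro ⟨ha, hb, hc, hd⟩
        refine ⟨ha, by rw [e1]; exact hb, ?_, by rw [e2]; exact hd⟩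
        exact hc.trans (le_of_eq (congrArg norm (hp1 z ha).symm))
    rw [← hs] at h1
    exact h1

end Pool.Agent.Helper36.KP
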