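import Mathlib
import Pool.Agent.Helper52.KP.StL

/-!
# Project KP, module VRD: variance inequality, strictly plurisubharmonic weight
-/

set_option autoImplicit false

namespace Pool.Agent.Helper36.KP

open Pool.Agent.Helper52.KP MeasureTheory Filter
open scoped ContDiff ComplexOrder Topology

/-- `StVRD` with the hypothesis `0 ≤ κ` (for `m = 0` it is needed). -/
def StVRD' : Prop := ∀ (m : ℕ) (ψ : (Fin m → ℂ) → ℝ), ContDiff ℝ ∞ ψ → ∀ δ : ℝ, 0 < δ →
  (∀ z, Psd (hes ψ z)) → (∀ z ξ, δ * sq ξ ≤ hf (hes ψ z) ξ) →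
  ∀ G : (Fin m → ℂ) → ℂ, ContDiff ℝ ∞ G → L2 Set.univ ψ G →
  ∀ κ : (Fin m → ℂ) → ℝ, (∀ z, 0 ≤ κ z) →
  (∀ z ξ, ‖∑ j, db j G z * star (ξ j)‖ ^ 2 ≤ κ z * hf (hes ψ z) ξ) →
  Integrable (fun z => κ z * Real.exp (-ψ z)) →
  ∃ h : (Fin m → ℂ) → ℂ, Differentiable ℂ h ∧ L2 Set.univ ψ h ∧
    nrm Set.univ ψ (fun z => G z - h z) ≤ ∫ z, κ z * Real.exp (-ψ z)

variable {m : ℕ}

theorem fderiv_cf (χ : (Fin m → ℂ) → ℝ) (z v : Fin m → ℂ) (h : DifferentiableAt ℝ χ z) :
    fderiv ℝ (cf χ) z v = ((fderiv ℝ χ z v : ℝ) : ℂ) := by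
  have h1 : HasFDerivAt (cf χ) (Complex.ofRealCLM.comp (fderiv ℝ χ z)) z :=
    Complex.ofRealCLM.hasFDerivAt.comp z h.hasFDerivAt
  rw [h1.fderiv]
  rfl

theorem norm_db_cf_le (χ : (Fin m → ℂ) → ℝ) (z : Fin m → ℂ) (j : Fin m)
    (h : DifferentiableAt ℝ χ z) : ‖db j (cf χ) z‖ ≤ ‖fderiv ℝ χ z‖ := by
  unfold db
  rw [fderiv_cf χ z _ h, fderiv_cf χ z _ h]
  have h1 : ‖fderiv ℝ χ z (Pi.single j 1)‖ ≤ ‖fderiv ℝ χ z‖ := by
    refine (ContinuousLinearMap.le_opNorm _ _).trans ?_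
    rw [Pi.norm_single, norm_one, mul_one]
  have h2 : ‖fderiv ℝ χ z (Pi.single j Complex.I)‖ ≤ ‖fderiv ℝ χ z‖ := by
    refine (ContinuousLinearMap.le_opNorm _ _).trans ?_
    rw [Pi.norm_single, Complex.norm_I, mul_one]
  rw [norm_div]
  have h3 : ‖((fderiv ℝ χ z (Pi.single j 1) : ℝ) : ℂ)
      + Complex.I * ((fderiv ℝ χ z (Pi.single j Complex.I) : ℝ) : ℂ)‖
      ≤ ‖fderiv ℝ χ z‖ + ‖fderiv ℝ χ z‖ := by
    refine (norm_add_le _ _).trans (add_le_add ?_ ?_)
    · rw [Complex.norm_real]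
      exact h1
    · rw [norm_mul, Complex.norm_I, one_mul, Complex.norm_real]
      exact h2
  have h4 : ‖(2 : ℂ)‖ = 2 := by norm_num
  rw [h4]
  linarith

theorem L2_iff (ψ : (Fin m → ℂ) → ℝ) (f : (Fin m → ℂ) → ℂ) : L2 Set.univ ψ f ↔
    AEStronglyMeasurable f volume ∧ Integrable (fun z => ‖f z‖ ^ 2 * Real.exp (-ψ z)) volume := by
  unfold L2
  rw [Measure.restrict_univ, integrableOn_univ]

theorem nrm_univ (ψ : (Fin m → ℂ) → ℝ) (f : (Fin m → ℂ) → ℂ) : nrm Set.univ ψ f
    = ∫ z, ‖f z‖ ^ 2 * Real.exp (-ψ z) := by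
  unfold nrm
  rw [Measure.restrict_univ]

theorem inn_univ (ψ : (Fin m → ℂ) → ℝ) (f g : (Fin m → ℂ) → ℂ) : inn Set.univ ψ f g
    = ∫ z, f z * star (g z) * (Real.exp (-ψ z) : ℂ) := by
  unfold inn
  rw [Measure.restrict_univ]

/-- the product of two square integrable functions -/
theorem integrable_inn {ψ : (Fin m → ℂ) → ℝ} (hψ : Continuous ψ) {f g : (Fin m → ℂ) → ℂ}
    (hf : L2 Set.univ ψ f) (hg : L2 Set.univ ψ g) :
    Integrable (fun z => f z * star (g z) * (Real.exp (-ψ z) : ℂ)) volume := by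
  rw [L2_iff] at hf hg
  have hE : Continuous (fun z => (Real.exp (-ψ z) : ℂ)) := by fun_prop
  refine ((hf.2.add hg.2).div_const 2).mono
    ((hf.1.mul hg.1.star).mul hE.aestronglyMeasurable) (Eventually.of_forall fun z => ?_)
  have hpos : 0 < Real.exp (-ψ z) := Real.exp_pos _
  rw [norm_mul, norm_mul, norm_star, Complex.norm_real, Real.norm_eq_abs, abs_of_pos hpos]
  have h1 : ‖f z‖ * ‖g z‖ ≤ (‖f z‖ ^ 2 + ‖g z‖ ^ 2) / 2 := by
    nlinarith [sq_nonneg (‖f z‖ - ‖g z‖)]
  refine (mul_le_mul_of_nonneg_right h1 hpos.le).trans ?_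
  refine le_trans (le_of_eq ?_) (Real.le_norm_self _)
  simp only [Pi.add_apply]
  ring

/-- norms -/
theorem integrable_nn {ψ : (Fin m → ℂ) → ℝ} (hψ : Continuous ψ) {f g : (Fin m → ℂ) → ℂ}
    (hf : L2 Set.univ ψ f) (hg : L2 Set.univ ψ g) :
    Integrable (fun z => ‖f z‖ * ‖g z‖ * Real.exp (-ψ z)) volume := by
  have h1 := (integrable_inn hψ hf hg).norm
  refine h1.congr (Eventually.of_forall fun z => ?_)
  have hpos : 0 < Real.exp (-ψ z) := Real.exp_pos _
  simp only [norm_mul, norm_star, Complex.norm_real, Real.norm_eq_abs, abs_of_pos hpos]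

theorem L2_of_cont {ψ : (Fin m → ℂ) → ℝ} (hψ : Continuous ψ) {f : (Fin m → ℂ) → ℂ}
    (hf : Continuous f) (hc : HasCompactSupport f) : L2 Set.univ ψ f := by
  rw [L2_iff]
  refine ⟨hf.aestronglyMeasurable, ?_⟩
  have h1 : Continuous (fun z => ‖f z‖ ^ 2 * Real.exp (-ψ z)) := by fun_prop
  refine h1.integrable_of_hasCompactSupport ?_
  refine hc.mono fun z hz => ?_
  rw [Function.mem_support] at hz ⊢
  intro h0
  apply hz
  simp [h0]

theorem L2_sub {ψ : (Fin m → ℂ) → ℝ} (hψ : Continuous ψ) {f g : (Fin m → ℂ) → ℂ}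
    (hf : L2 Set.univ ψ f) (hg : L2 Set.univ ψ g) : L2 Set.univ ψ (fun z => f z - g z) := by
  rw [L2_iff] at hf hg ⊢
  refine ⟨hf.1.sub hg.1, ?_⟩
  have hE : Continuous (fun z => Real.exp (-ψ z)) := by fun_prop
  refine ((hf.2.add hg.2).const_mul 2).mono
    (((hf.1.sub hg.1).norm.pow 2).mul hE.aestronglyMeasurable) (Eventually.of_forall fun z => ?_)
  have hpos : 0 < Real.exp (-ψ z) := Real.exp_pos _
  rw [Real.norm_eq_abs, abs_of_nonneg (by positivity)]
  have h1 : ‖f z - g z‖ ^ 2 ≤ 2 * (‖f z‖ ^ 2 + ‖g z‖ ^ 2) := by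
    have h2 := norm_sub_le (f z) (g z)
    nlinarith [sq_nonneg (‖f z‖ - ‖g z‖), norm_nonneg (f z - g z), norm_nonneg (f z),
      norm_nonneg (g z)]
  refine (mul_le_mul_of_nonneg_right h1 hpos.le).trans ?_
  refine le_trans (le_of_eq ?_) (Real.le_norm_self _)
  simp only [Pi.add_apply]
  ring

/-- the cutoff functions -/
theorem exists_cut (m : ℕ) : ∃ (χ : ℕ → (Fin m → ℂ) → ℝ) (C : ℝ), 0 ≤ C ∧
    (∀ i, ContDiff ℝ ∞ (χ i)) ∧ (∀ i, HasCompactSupport (χ i)) ∧ (∀ i z, 0 ≤ χ i z) ∧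
    (∀ i z, χ i z ≤ 1) ∧ (∀ (i : ℕ) z, ‖z‖ ≤ (i : ℝ) + 1 → χ i z = 1) ∧
    ∀ (i : ℕ) (z : Fin m → ℂ) (j : Fin m), ‖db j (cf (χ i)) z‖ ≤ C / ((i : ℝ) + 1) := by
  let b : ContDiffBump (0 : Fin m → ℂ) := ⟨1, 2, one_pos, one_lt_two⟩
  have hb : ContDiff ℝ ∞ (b : (Fin m → ℂ) → ℝ) := b.contDiff
  obtain ⟨C, hC⟩ := (b.hasCompactSupport.fderiv ℝ).exists_bound_of_continuous
    (hb.continuous_fderiv (by simp))
  have hC0 : 0 ≤ C := (norm_nonneg _).trans (hC 0)
  refine ⟨fun i z => b (((i : ℝ) + 1)⁻¹ • z), C, hC0, ?_, ?_, ?_, ?_, ?_, ?_⟩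
  · intro i
    exact hb.comp (contDiff_const_smul _)
  · intro i
    have hi : ((i : ℝ) + 1)⁻¹ ≠ 0 := by positivity
    exact b.hasCompactSupport.comp_smul hi
  · intro i z
    exact b.nonneg
  · intro i z
    exact b.le_one
  · intro i z hz
    apply b.one_of_mem_closedBall
    have hi : (0 : ℝ) < (i : ℝ) + 1 := by positivity
    rw [mem_closedBall_zero_iff, norm_smul, norm_inv, Real.norm_eq_abs, abs_of_pos hi]
    show ((i : ℝ) + 1)⁻¹ * ‖z‖ ≤ 1
    rw [inv_mul_le_iff₀ hi, mul_one]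
    exact hz
  · intro i z j
    have hi : (0 : ℝ) < (i : ℝ) + 1 := by positivity
    have hd : DifferentiableAt ℝ (fun z => b (((i : ℝ) + 1)⁻¹ • z)) z :=
      ((hb.comp (contDiff_const_smul _)).differentiable (by simp)).differentiableAt
    refine (norm_db_cf_le _ z j hd).trans ?_
    have h1 : HasFDerivAt (fun z : Fin m → ℂ => b (((i : ℝ) + 1)⁻¹ • z))
        ((fderiv ℝ b (((i : ℝ) + 1)⁻¹ • z)).comp
          (((i : ℝ) + 1)⁻¹ • ContinuousLinearMap.id ℝ (Fin m → ℂ))) z := by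
      have h2 : HasFDerivAt (b : (Fin m → ℂ) → ℝ) (fderiv ℝ b (((i : ℝ) + 1)⁻¹ • z))
          (((i : ℝ) + 1)⁻¹ • z) := (hb.differentiable (by simp)).differentiableAt.hasFDerivAt
      exact h2.comp z
        (((i : ℝ) + 1)⁻¹ • ContinuousLinearMap.id ℝ (Fin m → ℂ)).hasFDerivAt
    rw [h1.fderiv]
    refine (ContinuousLinearMap.opNorm_comp_le _ _).trans ?_
    rw [norm_smul, norm_inv, Real.norm_eq_abs, abs_of_pos hi, div_eq_mul_inv]
    refine mul_le_mul (hC _) ?_ (by positivity) hC0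
    calc ((i : ℝ) + 1)⁻¹ * ‖ContinuousLinearMap.id ℝ (Fin m → ℂ)‖
        ≤ ((i : ℝ) + 1)⁻¹ * 1 := by
          refine mul_le_mul_of_nonneg_left ContinuousLinearMap.norm_id_le (by positivity)
      _ = ((i : ℝ) + 1)⁻¹ := mul_one _

theorem hVRD (hPRJ : StPRJ) (hCAL : StCAL) : StVRD' := by
  intro m ψ hψ δ hδ hpsd hlow G hG hGL κ hκ0 hκ hκi
  have hψc : Continuous ψ := hψ.continuous
  obtain ⟨v, γ, h, hv, hγ, hh, hhL, hWT, hHi, hineq, horth⟩ := hPRJ m ψ hψ δ hδ hpsd hlow G hGL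
  refine ⟨h, hh, hhL, ?_⟩
  have haL : L2 Set.univ ψ (fun z => G z - h z) := L2_sub hψc hGL hhL
  set N := nrm Set.univ ψ (fun z => G z - h z) with hN
  set K := ∫ z, κ z * Real.exp (-ψ z) with hK
  -- the integral of the Hessian form is at most `N`
  have hγ0 : 0 ≤ ∑ j, ∑ k, nrm Set.univ ψ (γ k j) := by
    refine Finset.sum_nonneg fun j _ => Finset.sum_nonneg fun k _ => ?_
    rw [nrm_univ]
    exact integral_nonneg fun z => by positivity
  have hHN : ∫ z, hf (hes ψ z) (fun j => v j z) * Real.exp (-ψ z) ≤ N := by linarith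
  -- `N = inn a G`
  have hGN : inn Set.univ ψ (fun z => G z - h z) G = (N : ℂ) := by
    have h1 := horth h hh hhL
    rw [inn_univ] at h1 ⊢
    have h2 : ∫ z, (G z - h z) * star (G z) * (Real.exp (-ψ z) : ℂ)
        = (∫ z, (G z - h z) * star (G z - h z) * (Real.exp (-ψ z) : ℂ))
          + ∫ z, (G z - h z) * star (h z) * (Real.exp (-ψ z) : ℂ) := by
      rw [← integral_add (integrable_inn hψc haL haL) (integrable_inn hψc haL hhL)]
      refine integral_congr_ae (Eventually.of_forall fun z => ?_)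
      simp only [star_sub]
      ring
    rw [h2, h1, add_zero, hN, nrm_univ, ← integral_complex_ofReal]
    refine integral_congr_ae (Eventually.of_forall fun z => ?_)
    simp only
    rw [Complex.ofReal_mul, Complex.ofReal_pow, ← Complex.mul_conj']
    rfl
  obtain ⟨χ, C, hC0, hχs, hχc, hχ0, hχ1, hχe, hχd⟩ := exists_cut m
  -- the test functions
  have hcf : ∀ i, ContDiff ℝ ∞ (cf (χ i)) := fun i => Complex.ofRealCLM.contDiff.comp (hχs i)
  have hcfc : ∀ i, HasCompactSupport (cf (χ i)) := fun i =>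
    (hχc i).comp_left (g := fun x : ℝ => (x : ℂ)) Complex.ofReal_zero
  have hφs : ∀ i, ContDiff ℝ ∞ (fun z => cf (χ i) z * G z) := fun i => (hcf i).mul hG
  have hφc : ∀ i, HasCompactSupport (fun z => cf (χ i) z * G z) := fun i => (hcfc i).mul_right
  have hdbc : ∀ i j, Continuous (db j (fun z => cf (χ i) z * G z)) ∧
      HasCompactSupport (db j (fun z => cf (χ i) z * G z)) := by
    intro i j
    have h1 : Continuous (fderiv ℝ (fun z => cf (χ i) z * G z)) :=
      (hφs i).continuous_fderiv (by simp)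
    have h2 : HasCompactSupport (fderiv ℝ (fun z => cf (χ i) z * G z)) := (hφc i).fderiv ℝ
    refine ⟨?_, ?_⟩
    · unfold db
      exact ((h1.clm_apply continuous_const).add
        (continuous_const.mul (h1.clm_apply continuous_const))).div_const 2
    · refine h2.mono fun z hz => ?_
      rw [Function.mem_support] at hz ⊢
      intro h0
      apply hz
      unfold db
      rw [h0]
      simp
  have hdb : ∀ i j z, db j (fun z => cf (χ i) z * G z) z
      = db j (cf (χ i)) z * G z + cf (χ i) z * db j G z := by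
    intro i j z
    exact ((hCAL m j j (cf (χ i)) G z).1 ((hcf i).differentiable (by simp)).differentiableAt
      (hG.differentiable (by simp)).differentiableAt).2.2.2.1
  -- the main estimate
  have hB : ∀ j, Integrable (fun z => ‖v j z‖ * ‖G z‖ * Real.exp (-ψ z)) volume := fun j =>
    integrable_nn hψc (hv j) hGL
  have hmain : ∀ i : ℕ, ‖inn Set.univ ψ (fun z => G z - h z) (fun z => cf (χ i) z * G z)‖
      ≤ (K + N) / 2 + (∑ j, ∫ z, ‖v j z‖ * ‖G z‖ * Real.exp (-ψ z)) * (C / ((i : ℝ) + 1)) := by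
    intro i
    have h1 := hWT (fun z => cf (χ i) z * G z) ⟨hφs i, hφc i, Set.subset_univ _⟩
    have h2 : ∀ j, Integrable (fun z => v j z * star (db j (fun z => cf (χ i) z * G z) z)
        * (Real.exp (-ψ z) : ℂ)) volume := fun j =>
      integrable_inn hψc (hv j) (L2_of_cont hψc (hdbc i j).1 (hdbc i j).2)
    rw [h1]
    simp only [inn_univ]
    rw [← integral_finsetSum _ fun j _ => h2 j]
    have h3 : ∀ z, ‖∑ j, v j z * star (db j (fun z => cf (χ i) z * G z) z)
        * (Real.exp (-ψ z) : ℂ)‖ ≤ ((κ z * Real.exp (-ψ z)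
          + hf (hes ψ z) (fun j => v j z) * Real.exp (-ψ z)) / 2
          + (∑ j, ‖v j z‖ * ‖G z‖ * Real.exp (-ψ z)) * (C / ((i : ℝ) + 1))) := by
      intro z
      have hpos : 0 < Real.exp (-ψ z) := Real.exp_pos _
      rw [← Finset.sum_mul, norm_mul, Complex.norm_real, Real.norm_eq_abs, abs_of_pos hpos]
      have h4 : ‖∑ j, v j z * star (db j (fun z => cf (χ i) z * G z) z)‖
          ≤ (κ z + hf (hes ψ z) (fun j => v j z)) / 2
            + (∑ j, ‖v j z‖ * ‖G z‖) * (C / ((i : ℝ) + 1)) := by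
        have h5 : ∑ j, v j z * star (db j (fun z => cf (χ i) z * G z) z)
            = (χ i z : ℂ) * star (∑ j, db j G z * star (v j z))
              + ∑ j, v j z * star (db j (cf (χ i)) z * G z) := by
          rw [star_sum, Finset.mul_sum, ← Finset.sum_add_distrib]
          refine Finset.sum_congr rfl fun j _ => ?_
          rw [hdb, star_add, star_mul', star_mul' (cf (χ i) z), star_mul' (db j G z), star_star]
          have h6 : star (cf (χ i) z) = (χ i z : ℂ) := by
            unfold cf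
            exact Complex.conj_ofReal _
          rw [h6]
          ring
        rw [h5]
        refine (norm_add_le _ _).trans (add_le_add ?_ ?_)
        · have h6 := hκ z (fun j => v j z)
          have h7 : 0 ≤ hf (hes ψ z) (fun j => v j z) := (hpsd z).2 _
          have h8 : ‖∑ j, db j G z * star (v j z)‖
              ≤ (κ z + hf (hes ψ z) (fun j => v j z)) / 2 := by
            have h9 : 0 ≤ (κ z + hf (hes ψ z) (fun j => v j z)) / 2 := by
              have := hκ0 z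
              linarith
            rw [← sq_le_sq₀ (norm_nonneg _) h9]
            nlinarith [sq_nonneg (κ z - hf (hes ψ z) (fun j => v j z))]
          rw [norm_mul, norm_star, Complex.norm_real, Real.norm_eq_abs, abs_of_nonneg (hχ0 i z)]
          calc χ i z * ‖∑ j, db j G z * star (v j z)‖
              ≤ 1 * ‖∑ j, db j G z * star (v j z)‖ :=
                mul_le_mul_of_nonneg_right (hχ1 i z) (norm_nonneg _)
            _ ≤ _ := by rw [one_mul]; exact h8
        · rw [Finset.sum_mul]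
          refine (norm_sum_le _ _).trans (Finset.sum_le_sum fun j _ => ?_)
          rw [norm_mul, norm_star, norm_mul]
          have h6 := hχd i z j
          calc ‖v j z‖ * (‖db j (cf (χ i)) z‖ * ‖G z‖)
              = (‖v j z‖ * ‖G z‖) * ‖db j (cf (χ i)) z‖ := by ring
            _ ≤ (‖v j z‖ * ‖G z‖) * (C / ((i : ℝ) + 1)) :=
                mul_le_mul_of_nonneg_left h6 (by positivity)
      have h10 : ∑ j, ‖v j z‖ * ‖G z‖ * Real.exp (-ψ z)
          = (∑ j, ‖v j z‖ * ‖G z‖) * Real.exp (-ψ z) := by rw [Finset.sum_mul]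
      rw [h10]
      refine (mul_le_mul_of_nonneg_right h4 hpos.le).trans (le_of_eq ?_)
      ring
    have hi1 : Integrable (fun z => (κ z * Real.exp (-ψ z)
          + hf (hes ψ z) (fun j => v j z) * Real.exp (-ψ z)) / 2) volume :=
      (hκi.add hHi).div_const 2
    have hi2 : Integrable (fun z => (∑ j, ‖v j z‖ * ‖G z‖ * Real.exp (-ψ z))
        * (C / ((i : ℝ) + 1))) volume :=
      (integrable_finsetSum _ fun j _ => hB j).mul_const _
    refine (norm_integral_le_integral_norm _).trans ?_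
    refine (integral_mono_of_nonneg (Eventually.of_forall fun z => norm_nonneg _)
      (hi1.add hi2) (Eventually.of_forall h3)).trans ?_
    have h6 : ∫ z, ((κ z * Real.exp (-ψ z)
          + hf (hes ψ z) (fun j => v j z) * Real.exp (-ψ z)) / 2
          + (∑ j, ‖v j z‖ * ‖G z‖ * Real.exp (-ψ z)) * (C / ((i : ℝ) + 1)))
        = (K + ∫ z, hf (hes ψ z) (fun j => v j z) * Real.exp (-ψ z)) / 2
          + (∑ j, ∫ z, ‖v j z‖ * ‖G z‖ * Real.exp (-ψ z)) * (C / ((i : ℝ) + 1)) := by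
      rw [integral_add hi1 hi2, integral_div, integral_add hκi hHi, integral_mul_const,
        integral_finsetSum _ fun j _ => hB j]
    show ∫ z, ((κ z * Real.exp (-ψ z)
          + hf (hes ψ z) (fun j => v j z) * Real.exp (-ψ z)) / 2
          + (∑ j, ‖v j z‖ * ‖G z‖ * Real.exp (-ψ z)) * (C / ((i : ℝ) + 1))) ≤ _
    rw [h6]
    linarith
  -- the limit
  have hlim : Tendsto (fun i : ℕ => inn Set.univ ψ (fun z => G z - h z)
      (fun z => cf (χ i) z * G z)) atTop (𝓝 (N : ℂ)) := by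
    rw [← hGN]
    simp only [inn_univ]
    have hE : Continuous (fun z => (Real.exp (-ψ z) : ℂ)) := by fun_prop
    refine tendsto_integral_of_dominated_convergence
      (fun z => ‖G z - h z‖ * ‖G z‖ * Real.exp (-ψ z)) ?_ (integrable_nn hψc haL hGL) ?_ ?_
    · intro i
      exact ((((L2_iff _ _).1 haL).1).mul
        ((hφs i).continuous.star.aestronglyMeasurable)).mul hE.aestronglyMeasurable
    · intro i
      refine Eventually.of_forall fun z => ?_
      have hpos : 0 < Real.exp (-ψ z) := Real.exp_pos _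
      rw [norm_mul, norm_mul, norm_star, norm_mul, Complex.norm_real, Real.norm_eq_abs,
        abs_of_pos hpos]
      have h1 : ‖cf (χ i) z‖ ≤ 1 := by
        unfold cf
        rw [Complex.norm_real, Real.norm_eq_abs, abs_of_nonneg (hχ0 i z)]
        exact hχ1 i z
      refine mul_le_mul_of_nonneg_right (mul_le_mul_of_nonneg_left ?_ (norm_nonneg _)) hpos.le
      calc ‖cf (χ i) z‖ * ‖G z‖ ≤ 1 * ‖G z‖ := mul_le_mul_of_nonneg_right h1 (norm_nonneg _)
        _ = ‖G z‖ := one_mul _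
    · refine Eventually.of_forall fun z => ?_
      refine tendsto_const_nhds.congr' ?_
      filter_upwards [eventually_ge_atTop (Nat.ceil ‖z‖)] with i hi
      have h1 : χ i z = 1 := by
        apply hχe
        have h2 := Nat.le_ceil ‖z‖
        have h3 : ((Nat.ceil ‖z‖ : ℕ) : ℝ) ≤ i := by exact_mod_cast hi
        linarith
      unfold cf
      rw [h1, Complex.ofReal_one, one_mul]
  have hlim2 : Tendsto (fun i : ℕ => (K + N) / 2
      + (∑ j, ∫ z, ‖v j z‖ * ‖G z‖ * Real.exp (-ψ z)) * (C / ((i : ℝ) + 1))) atTop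
      (𝓝 ((K + N) / 2 + (∑ j, ∫ z, ‖v j z‖ * ‖G z‖ * Real.exp (-ψ z)) * 0)) := by
    refine tendsto_const_nhds.add (tendsto_const_nhds.mul ?_)
    exact tendsto_const_nhds.div_atTop
      (tendsto_atTop_add_const_right _ _ tendsto_natCast_atTop_atTop)
  have hfin := le_of_tendsto_of_tendsto' hlim.norm hlim2 hmain
  rw [mul_zero, add_zero, Complex.norm_real] at hfin
  have h9 := (Real.le_norm_self N).trans hfin
  linarith

end Pool.Agent.Helper36.KP
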