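import Mathlib
import Pool.Agent.Helper52.KP.StW
import Pool.Agent.Helper36.KP.M_VRD

/-!
# Project KP, module LIM: preparations
-/

set_option autoImplicit false

namespace Pool.Agent.Helper36.KP

open Pool.Agent.Helper52.KP MeasureTheory Filter
open scoped ContDiff ComplexOrder Topology

variable {m : ℕ}

theorem restrict_of_null {U : Set (Fin m → ℂ)} (hU : volume Uᶜ = 0) :
    volume.restrict U = volume :=
  Measure.restrict_eq_self_of_ae_mem (mem_ae_iff.2 hU)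

theorem L2_U_iff {U : Set (Fin m → ℂ)} (hU : volume Uᶜ = 0) (ψ : (Fin m → ℂ) → ℝ)
    (f : (Fin m → ℂ) → ℂ) : L2 U ψ f ↔
    AEStronglyMeasurable f volume ∧ Integrable (fun z => ‖f z‖ ^ 2 * Real.exp (-ψ z)) volume := by
  unfold L2 IntegrableOn
  rw [restrict_of_null hU]

theorem nrm_U {U : Set (Fin m → ℂ)} (hU : volume Uᶜ = 0) (ψ : (Fin m → ℂ) → ℝ)
    (f : (Fin m → ℂ) → ℂ) : nrm U ψ f = ∫ z, ‖f z‖ ^ 2 * Real.exp (-ψ z) := by
  unfold nrm
  rw [restrict_of_null hU]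

theorem inn_U {U : Set (Fin m → ℂ)} (hU : volume Uᶜ = 0) (ψ : (Fin m → ℂ) → ℝ)
    (f g : (Fin m → ℂ) → ℂ) : inn U ψ f g
    = ∫ z, f z * star (g z) * (Real.exp (-ψ z) : ℂ) := by
  unfold inn
  rw [restrict_of_null hU]

/-- local bound -/
theorem loc_bound {ψ : (Fin m → ℂ) → ℝ} {f : (Fin m → ℂ) → ℂ}
    (hf : L2 Set.univ ψ f) {K : Set (Fin m → ℂ)} (hK : MeasurableSet K) {B : ℝ}
    (hB : ∀ z ∈ K, ψ z ≤ B) : IntegrableOn (fun z => ‖f z‖ ^ 2) K ∧
      ∫ z in K, ‖f z‖ ^ 2 ≤ Real.exp B * nrm Set.univ ψ f := by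
  rw [L2_iff] at hf
  have h1 : ∀ z ∈ K, ‖f z‖ ^ 2 ≤ Real.exp B * (‖f z‖ ^ 2 * Real.exp (-ψ z)) := by
    intro z hz
    have h2 : 1 ≤ Real.exp B * Real.exp (-ψ z) := by
      rw [← Real.exp_add]
      exact Real.one_le_exp (by linarith [hB z hz])
    nlinarith [sq_nonneg ‖f z‖]
  have hi : IntegrableOn (fun z => Real.exp B * (‖f z‖ ^ 2 * Real.exp (-ψ z))) K :=
    (hf.2.const_mul _).integrableOn
  have hi2 : IntegrableOn (fun z => ‖f z‖ ^ 2) K := by
    refine hi.mono' (hf.1.norm.pow 2).restrict ?_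
    refine (ae_restrict_iff' hK).2 (Eventually.of_forall fun z hz => ?_)
    rw [Real.norm_eq_abs, abs_of_nonneg (by positivity)]
    exact h1 z hz
  refine ⟨hi2, (setIntegral_mono_on hi2 hi hK h1).trans ?_⟩
  rw [nrm_univ, ← integral_const_mul]
  refine setIntegral_le_integral (hf.2.const_mul _) (Eventually.of_forall fun z => ?_)
  simp only [Pi.zero_apply]
  positivity

/-- comparison of the weights -/
theorem cmp_weight {U : Set (Fin m → ℂ)} (hU : volume Uᶜ = 0) {u ψ : (Fin m → ℂ) → ℝ}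
    (hψ : Continuous ψ) (huψ : ∀ z ∈ U, u z ≤ ψ z) {f : (Fin m → ℂ) → ℂ} (hf : L2 U u f) :
    L2 Set.univ ψ f ∧ nrm Set.univ ψ f ≤ nrm U u f := by
  rw [L2_U_iff hU] at hf
  have hae : ∀ᵐ z ∂(volume : Measure (Fin m → ℂ)), z ∈ U := mem_ae_iff.2 hU
  have h1 : ∀ᵐ z ∂(volume : Measure (Fin m → ℂ)),
      ‖f z‖ ^ 2 * Real.exp (-ψ z) ≤ ‖f z‖ ^ 2 * Real.exp (-u z) := by
    filter_upwards [hae] with z hz
    refine mul_le_mul_of_nonneg_left (Real.exp_le_exp.2 ?_) (by positivity)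
    linarith [huψ z hz]
  have hE : Continuous (fun z => Real.exp (-ψ z)) := by fun_prop
  have h2 : Integrable (fun z => ‖f z‖ ^ 2 * Real.exp (-ψ z)) volume := by
    refine hf.2.mono' ((hf.1.norm.pow 2).mul hE.aestronglyMeasurable) ?_
    filter_upwards [h1] with z hz
    rw [Real.norm_eq_abs, abs_of_nonneg (by positivity)]
    exact hz
  refine ⟨(L2_iff _ _).2 ⟨hf.1, h2⟩, ?_⟩
  rw [nrm_univ, nrm_U hU]
  exact integral_mono_ae h2 hf.2 h1

/-- orthogonal sums -/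
theorem nrm_pyth {ψ : (Fin m → ℂ) → ℝ} (hψ : Continuous ψ) {a d : (Fin m → ℂ) → ℂ}
    (ha : L2 Set.univ ψ a) (hd : L2 Set.univ ψ d) (h0 : inn Set.univ ψ a d = 0) :
    nrm Set.univ ψ a ≤ nrm Set.univ ψ (fun z => a z + d z) := by
  have hi := integrable_inn hψ ha hd
  rw [inn_univ] at h0
  rw [L2_iff] at ha hd
  have h1 : ∀ z, ‖a z + d z‖ ^ 2 * Real.exp (-ψ z) = ‖a z‖ ^ 2 * Real.exp (-ψ z)
      + ‖d z‖ ^ 2 * Real.exp (-ψ z) + 2 * (a z * star (d z) * (Real.exp (-ψ z) : ℂ)).re := by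
    intro z
    have h2 : ‖a z + d z‖ ^ 2 = ‖a z‖ ^ 2 + ‖d z‖ ^ 2 + 2 * (a z * star (d z)).re := by
      simp only [Complex.sq_norm, Complex.normSq_apply, Complex.add_re, Complex.add_im,
        Complex.mul_re, Complex.star_def, Complex.conj_re, Complex.conj_im]
      ring
    rw [h2, Complex.re_mul_ofReal]
    ring
  have h3 : ∫ z, (a z * star (d z) * (Real.exp (-ψ z) : ℂ)).re = 0 := by
    have h4 := integral_re hi
    simp only [RCLike.re_to_complex] at h4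
    rw [h4, h0, Complex.zero_re]
  have hir : Integrable (fun z => (a z * star (d z) * (Real.exp (-ψ z) : ℂ)).re) volume := hi.re
  rw [nrm_univ, nrm_univ]
  simp only [h1]
  have had : Integrable (fun z => ‖a z‖ ^ 2 * Real.exp (-ψ z)
      + ‖d z‖ ^ 2 * Real.exp (-ψ z)) volume := ha.2.add hd.2
  rw [integral_add had (hir.const_mul 2), integral_add ha.2 hd.2,
    integral_const_mul, h3, mul_zero, add_zero]
  have h5 : 0 ≤ ∫ z, ‖d z‖ ^ 2 * Real.exp (-ψ z) := integral_nonneg fun z => by positivity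
  linarith

theorem L2_zero (ψ : (Fin m → ℂ) → ℝ) : L2 Set.univ ψ (fun _ => 0) := by
  rw [L2_iff]
  refine ⟨aestronglyMeasurable_const, ?_⟩
  simp

/-- minimality of the projection -/
theorem nrm_min {ψ : (Fin m → ℂ) → ℝ} (hψ : Continuous ψ) {G h : (Fin m → ℂ) → ℂ}
    (hG : L2 Set.univ ψ G) (hh : Differentiable ℂ h) (hhL : L2 Set.univ ψ h)
    (horth : ∀ h' : (Fin m → ℂ) → ℂ, Differentiable ℂ h' → L2 Set.univ ψ h' →
      inn Set.univ ψ (fun z => G z - h z) h' = 0) {h' : (Fin m → ℂ) → ℂ}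
    (hh' : Differentiable ℂ h') (hhL' : L2 Set.univ ψ h') :
    nrm Set.univ ψ (fun z => G z - h z) ≤ nrm Set.univ ψ (fun z => G z - h' z) := by
  have h1 := nrm_pyth hψ (L2_sub hψ hG hhL) (L2_sub hψ hhL hhL')
    (horth _ (hh.sub hh') (L2_sub hψ hhL hhL'))
  refine h1.trans (le_of_eq ?_)
  congr 1
  funext z
  ring

/-- the projections are bounded -/
theorem nrm_h_le {ψ : (Fin m → ℂ) → ℝ} (hψ : Continuous ψ) {G h : (Fin m → ℂ) → ℂ}
    (hG : L2 Set.univ ψ G) (hh : Differentiable ℂ h) (hhL : L2 Set.univ ψ h)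
    (horth : ∀ h' : (Fin m → ℂ) → ℂ, Differentiable ℂ h' → L2 Set.univ ψ h' →
      inn Set.univ ψ (fun z => G z - h z) h' = 0) :
    nrm Set.univ ψ (fun z => G z - h z) ≤ nrm Set.univ ψ G ∧
      nrm Set.univ ψ h ≤ 4 * nrm Set.univ ψ G := by
  have h1 := nrm_min hψ hG hh hhL horth (differentiable_const (0 : ℂ)) (L2_zero ψ)
  simp only [sub_zero] at h1
  refine ⟨h1, ?_⟩
  have h2 : nrm Set.univ ψ h ≤ 2 * nrm Set.univ ψ G
      + 2 * nrm Set.univ ψ (fun z => G z - h z) := by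
    have ha := (L2_iff _ _).1 (L2_sub hψ hG hhL)
    rw [L2_iff] at hG hhL
    rw [nrm_univ, nrm_univ, nrm_univ, ← integral_const_mul, ← integral_const_mul,
      ← integral_add (hG.2.const_mul 2) (ha.2.const_mul 2)]
    refine integral_mono hhL.2 ((hG.2.const_mul 2).add (ha.2.const_mul 2)) fun z => ?_
    have h3 : ‖h z‖ ≤ ‖G z‖ + ‖G z - h z‖ := by
      have h4 := norm_sub_le (G z) (G z - h z)
      rwa [sub_sub_cancel] at h4
    have h5 : ‖h z‖ ^ 2 ≤ 2 * ‖G z‖ ^ 2 + 2 * ‖G z - h z‖ ^ 2 := by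
      nlinarith [sq_nonneg (‖G z‖ - ‖G z - h z‖), norm_nonneg (h z), norm_nonneg (G z),
        norm_nonneg (G z - h z)]
    have hpos : 0 < Real.exp (-ψ z) := Real.exp_pos _
    nlinarith
  linarith

end Pool.Agent.Helper36.KP
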