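import Mathlib
import Pool.Agent.Helper36.KP.LimA

/-!
# Project KP, module LIM: Hermitian forms, uniform convergence
-/

set_option autoImplicit false

namespace Pool.Agent.Helper36.KP

open Pool.Agent.Helper52.KP MeasureTheory Filter
open scoped ContDiff ComplexOrder Topology

variable {m : ℕ}

theorem hf_zero (A : Matrix (Fin m) (Fin m) ℂ) : hf A 0 = 0 := by
  unfold hf
  simp

theorem hf_smul (A : Matrix (Fin m) (Fin m) ℂ) (t : ℝ) (ξ : Fin m → ℂ) :
    hf A (fun j => (t : ℂ) * ξ j) = t ^ 2 * hf A ξ := by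
  unfold hf
  have h1 : ∑ j, ∑ k, A j k * ((t : ℂ) * ξ j) * star ((t : ℂ) * ξ k)
      = ((t ^ 2 : ℝ) : ℂ) * ∑ j, ∑ k, A j k * ξ j * star (ξ k) := by
    rw [Finset.mul_sum]
    refine Finset.sum_congr rfl fun j _ => ?_
    rw [Finset.mul_sum]
    refine Finset.sum_congr rfl fun k _ => ?_
    have h2 : star (t : ℂ) = (t : ℂ) := Complex.conj_ofReal t
    rw [star_mul', h2]
    push_cast
    ring
  rw [h1, Complex.re_ofReal_mul]

theorem hf_sub_le (A B : Matrix (Fin m) (Fin m) ℂ) (ξ : Fin m → ℂ) :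
    |hf A ξ - hf B ξ| ≤ (∑ j, ∑ k, ‖A j k - B j k‖) * ‖ξ‖ ^ 2 := by
  have h1 : hf A ξ - hf B ξ = (∑ j, ∑ k, (A j k - B j k) * ξ j * star (ξ k)).re := by
    unfold hf
    rw [← Complex.sub_re, ← Finset.sum_sub_distrib]
    congr 1
    refine Finset.sum_congr rfl fun j _ => ?_
    rw [← Finset.sum_sub_distrib]
    refine Finset.sum_congr rfl fun k _ => ?_
    ring
  rw [h1]
  refine (Complex.abs_re_le_norm _).trans ?_
  rw [Finset.sum_mul]
  refine (norm_sum_le _ _).trans (Finset.sum_le_sum fun j _ => ?_)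
  rw [Finset.sum_mul]
  refine (norm_sum_le _ _).trans (Finset.sum_le_sum fun k _ => ?_)
  rw [norm_mul, norm_mul, norm_star, mul_assoc]
  refine mul_le_mul_of_nonneg_left ?_ (norm_nonneg _)
  rw [pow_two]
  exact mul_le_mul (norm_le_pi_norm ξ j) (norm_le_pi_norm ξ k) (norm_nonneg _) (norm_nonneg _)

theorem hf_abs_le (A : Matrix (Fin m) (Fin m) ℂ) (ξ : Fin m → ℂ) :
    |hf A ξ| ≤ (∑ j, ∑ k, ‖A j k‖) * ‖ξ‖ ^ 2 := by
  have h := hf_sub_le A 0 ξ
  have h0 : hf (0 : Matrix (Fin m) (Fin m) ℂ) ξ = 0 := by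
    unfold hf
    simp
  simpa [h0] using h

/-- uniform positivity -/
theorem coercive {K : Set (Fin m → ℂ)} (hK : IsCompact K)
    (H : (Fin m → ℂ) → Matrix (Fin m) (Fin m) ℂ) (Hc : ∀ j k, ContinuousOn (fun z => H z j k) K)
    (Hp : ∀ z ∈ K, Pd (H z)) (A : ℕ → (Fin m → ℂ) → Matrix (Fin m) (Fin m) ℂ)
    (hA : ∀ j k, TendstoUniformlyOn (fun i z => A i z j k) (fun z => H z j k) atTop K) :
    ∃ c : ℝ, 0 < c ∧ ∀ᶠ i in atTop, ∀ z ∈ K, ∀ ξ : Fin m → ℂ, c * ‖ξ‖ ^ 2 ≤ hf (A i z) ξ := by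
  -- a lower bound on the unit sphere
  obtain ⟨c, hc, h1⟩ : ∃ c : ℝ, 0 < c ∧ ∀ z ∈ K, ∀ ξ : Fin m → ℂ, ‖ξ‖ = 1 → c ≤ hf (H z) ξ := by
    have hcomp : IsCompact (K ×ˢ Metric.sphere (0 : Fin m → ℂ) 1) :=
      hK.prod (isCompact_sphere _ _)
    have hcont : ContinuousOn (fun p : (Fin m → ℂ) × (Fin m → ℂ) => hf (H p.1) p.2)
        (K ×ˢ Metric.sphere (0 : Fin m → ℂ) 1) := by
      unfold hf
      refine Complex.continuous_re.comp_continuousOn ?_
      refine continuousOn_finsetSum _ fun j _ => continuousOn_finsetSum _ fun k _ => ?_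
      have e1 : ContinuousOn (fun p : (Fin m → ℂ) × (Fin m → ℂ) => H p.1 j k)
          (K ×ˢ Metric.sphere (0 : Fin m → ℂ) 1) :=
        (Hc j k).comp continuous_fst.continuousOn fun p hp => hp.1
      have e2 : Continuous (fun p : (Fin m → ℂ) × (Fin m → ℂ) => p.2 j) := by fun_prop
      have e3 : Continuous (fun p : (Fin m → ℂ) × (Fin m → ℂ) => star (p.2 k)) := by fun_prop
      exact (e1.mul e2.continuousOn).mul e3.continuousOn
    by_cases hne : (K ×ˢ Metric.sphere (0 : Fin m → ℂ) 1).Nonempty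
    · obtain ⟨p, hp, hmin⟩ := hcomp.exists_isMinOn hne hcont
      have hp2 : ‖p.2‖ = 1 := by
        have := hp.2
        rwa [mem_sphere_zero_iff_norm] at this
      refine ⟨hf (H p.1) p.2, (Hp p.1 hp.1).2 p.2 ?_, fun z hz ξ hξ => ?_⟩
      · rintro h0
        rw [h0, norm_zero] at hp2
        exact zero_ne_one hp2
      · have hm : (z, ξ) ∈ K ×ˢ Metric.sphere (0 : Fin m → ℂ) 1 :=
          ⟨hz, by rw [mem_sphere_zero_iff_norm]; exact hξ⟩
        have h3 := isMinOn_iff.1 hmin (z, ξ) hm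
        exact h3
    · refine ⟨1, one_pos, fun z hz ξ hξ => ?_⟩
      exact absurd ⟨(z, ξ), hz, by rw [mem_sphere_zero_iff_norm]; exact hξ⟩ hne
  have h2 : ∀ z ∈ K, ∀ ξ : Fin m → ℂ, c * ‖ξ‖ ^ 2 ≤ hf (H z) ξ := by
    intro z hz ξ
    by_cases hξ : ξ = 0
    · rw [hξ, hf_zero, norm_zero]
      simp
    · have hn : 0 < ‖ξ‖ := norm_pos_iff.2 hξ
      have h3 := h1 z hz (fun j => ((‖ξ‖⁻¹ : ℝ) : ℂ) * ξ j) (by
        have : (fun j => ((‖ξ‖⁻¹ : ℝ) : ℂ) * ξ j) = ((‖ξ‖⁻¹ : ℝ) : ℂ) • ξ := rfl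
        rw [this, norm_smul, Complex.norm_real, norm_inv, norm_norm, inv_mul_cancel₀ hn.ne'])
      rw [hf_smul] at h3
      have h4 : ‖ξ‖ ^ 2 * (‖ξ‖⁻¹ ^ 2 * hf (H z) ξ) = hf (H z) ξ := by
        field_simp
      have h5 := mul_le_mul_of_nonneg_left h3 (sq_nonneg ‖ξ‖)
      rw [h4] at h5
      linarith
  refine ⟨c / 2, by positivity, ?_⟩
  have h6 : ∀ j k, ∀ᶠ i in atTop, ∀ z ∈ K, ‖A i z j k - H z j k‖ ≤ c / (2 * ((m : ℝ) ^ 2 + 1)) := by
    intro j k
    have h7 := Metric.tendstoUniformlyOn_iff.1 (hA j k) (c / (2 * ((m : ℝ) ^ 2 + 1)))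
      (by positivity)
    filter_upwards [h7] with i hi z hz
    have h8 := hi z hz
    rw [dist_comm, dist_eq_norm] at h8
    exact h8.le
  have h9 : ∀ᶠ i in atTop, ∀ j k, ∀ z ∈ K,
      ‖A i z j k - H z j k‖ ≤ c / (2 * ((m : ℝ) ^ 2 + 1)) := by
    rw [eventually_all]
    intro j
    rw [eventually_all]
    exact fun k => h6 j k
  filter_upwards [h9] with i hi z hz ξ
  have h10 := hf_sub_le (A i z) (H z) ξ
  have h11 : ∑ j, ∑ k, ‖A i z j k - H z j k‖ ≤ c / 2 := by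
    calc ∑ j, ∑ k, ‖A i z j k - H z j k‖
        ≤ ∑ _j : Fin m, ∑ _k : Fin m, c / (2 * ((m : ℝ) ^ 2 + 1)) :=
          Finset.sum_le_sum fun j _ => Finset.sum_le_sum fun k _ => hi j k z hz
      _ = (m : ℝ) ^ 2 * (c / (2 * ((m : ℝ) ^ 2 + 1))) := by
          simp only [Finset.sum_const, Finset.card_univ, Fintype.card_fin, nsmul_eq_mul]
          ring
      _ ≤ c / 2 := by
          rw [← mul_div_assoc, div_le_div_iff₀ (by positivity) (by norm_num)]
          nlinarith [sq_nonneg (m : ℝ)]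
  have h12 := h2 z hz ξ
  have h13 := abs_le.1 h10
  have h14 : (∑ j, ∑ k, ‖A i z j k - H z j k‖) * ‖ξ‖ ^ 2 ≤ c / 2 * ‖ξ‖ ^ 2 :=
    mul_le_mul_of_nonneg_right h11 (sq_nonneg _)
  linarith [h13.1]

/-- the exponentials converge uniformly -/
theorem exp_unif {K : Set (Fin m → ℂ)} {u : (Fin m → ℂ) → ℝ} {ψ : ℕ → (Fin m → ℂ) → ℝ}
    (h : TendstoUniformlyOn ψ u atTop K) {b : ℝ} (hb : ∀ z ∈ K, b ≤ u z)
    (hle : ∀ i, ∀ z ∈ K, u z ≤ ψ i z) (s : ℝ) (hs : 0 < s) :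
    TendstoUniformlyOn (fun i z => Real.exp (-(s * ψ i z))) (fun z => Real.exp (-(s * u z)))
      atTop K := by
  rw [Metric.tendstoUniformlyOn_iff] at h ⊢
  intro ε hε
  have hpos : 0 < Real.exp (-(s * b)) := Real.exp_pos _
  filter_upwards [h (ε / (s * Real.exp (-(s * b)))) (by positivity)] with i hi z hz
  have h1 := hi z hz
  rw [Real.dist_eq, abs_lt] at h1
  have h2 := hle i z hz
  have h3 := hb z hz
  have hm := hs
  have h4 : Real.exp (-(s * ψ i z)) ≤ Real.exp (-(s * u z)) :=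
    Real.exp_le_exp.2 (by nlinarith)
  rw [Real.dist_eq, abs_of_nonneg (by linarith)]
  have h5 : Real.exp (-(s * ψ i z)) = Real.exp (-(s * u z)) * Real.exp (-(s * (ψ i z - u z))) := by
    rw [← Real.exp_add]
    congr 1
    ring
  have h6 : 1 - s * (ψ i z - u z) ≤ Real.exp (-(s * (ψ i z - u z))) := by
    have := Real.add_one_le_exp (-(s * (ψ i z - u z)))
    linarith
  have h7 : Real.exp (-(s * u z)) ≤ Real.exp (-(s * b)) := Real.exp_le_exp.2 (by nlinarith)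
  have h8 : Real.exp (-(s * u z)) - Real.exp (-(s * ψ i z))
      ≤ Real.exp (-(s * b)) * (s * (ψ i z - u z)) := by
    rw [h5]
    have h9 : 0 ≤ s * (ψ i z - u z) := mul_nonneg hs.le (by linarith)
    have h10 : 0 < Real.exp (-(s * u z)) := Real.exp_pos _
    have h11 : Real.exp (-(s * u z)) - Real.exp (-(s * u z)) * Real.exp (-(s * (ψ i z - u z)))
        = Real.exp (-(s * u z)) * (1 - Real.exp (-(s * (ψ i z - u z)))) := by ring
    rw [h11]
    calc Real.exp (-(s * u z)) * (1 - Real.exp (-(s * (ψ i z - u z))))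
        ≤ Real.exp (-(s * u z)) * (s * (ψ i z - u z)) :=
          mul_le_mul_of_nonneg_left (by linarith) h10.le
      _ ≤ Real.exp (-(s * b)) * (s * (ψ i z - u z)) := mul_le_mul_of_nonneg_right h7 h9
  refine lt_of_le_of_lt h8 ?_
  have h12 : ψ i z - u z < ε / (s * Real.exp (-(s * b))) := by linarith [h1.1]
  rw [lt_div_iff₀ (by positivity)] at h12
  linarith

end Pool.Agent.Helper36.KP
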