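import Mathlib
import Pool.Agent.Helper36.KP.LimB

/-!
# Project KP, module LIM: weak convergence, block matrices
-/

set_option autoImplicit false

namespace Pool.Agent.Helper36.KP

open Pool.Agent.Helper52.KP MeasureTheory Filter
open scoped ContDiff ComplexOrder Topology

variable {m : ℕ}

theorem memLp_of_sq {μ : Measure (Fin m → ℂ)} {f : (Fin m → ℂ) → ℂ}
    (hf : AEStronglyMeasurable f μ) (h : Integrable (fun z => ‖f z‖ ^ 2) μ) : MemLp f 2 μ :=
  (memLp_two_iff_integrable_sq_norm hf).2 h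

theorem sq_of_memLp {μ : Measure (Fin m → ℂ)} {f : (Fin m → ℂ) → ℂ}
    (h : MemLp f 2 μ) : Integrable (fun z => ‖f z‖ ^ 2) μ :=
  (memLp_two_iff_integrable_sq_norm h.1).1 h

theorem memLp_mul_real {K : Set (Fin m → ℂ)} (hK : IsCompact K) {g : (Fin m → ℂ) → ℂ}
    (hg : MemLp g 2 (volume.restrict K)) {e : (Fin m → ℂ) → ℝ} (he : ContinuousOn e K) :
    MemLp (fun z => g z * (e z : ℂ)) 2 (volume.restrict K) := by
  obtain ⟨C, hC⟩ := hK.exists_bound_of_continuousOn he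
  have hm : AEStronglyMeasurable (fun z => (e z : ℂ)) (volume.restrict K) :=
    (Complex.continuous_ofReal.comp_continuousOn he).aestronglyMeasurable hK.measurableSet
  refine MemLp.of_le_mul (c := C) hg (hg.1.mul hm) ?_
  refine (ae_restrict_iff' hK.measurableSet).2 (Eventually.of_forall fun z hz => ?_)
  rw [norm_mul, Complex.norm_real, mul_comm]
  exact mul_le_mul_of_nonneg_right (hC z hz) (norm_nonneg _)

/-- weak convergence with converging weights -/
theorem weak_weight {K : Set (Fin m → ℂ)} (hK : IsCompact K) (f : ℕ → (Fin m → ℂ) → ℂ)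
    (w : (Fin m → ℂ) → ℂ) (hfm : ∀ i, MemLp (f i) 2 (volume.restrict K)) (B : ℝ)
    (hB : ∀ᶠ i in atTop, ∫ z in K, ‖f i z‖ ^ 2 ≤ B)
    (hw : ∀ φ : (Fin m → ℂ) → ℂ, MemLp φ 2 (volume.restrict K) →
      Tendsto (fun i => ∫ z in K, f i z * φ z) atTop (𝓝 (∫ z in K, w z * φ z)))
    (e : ℕ → (Fin m → ℂ) → ℝ) (e0 : (Fin m → ℂ) → ℝ) (he : TendstoUniformlyOn e e0 atTop K)
    (hec : ∀ i, ContinuousOn (e i) K) (he0 : ContinuousOn e0 K) (g : (Fin m → ℂ) → ℂ)
    (hg : MemLp g 2 (volume.restrict K)) :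
    Tendsto (fun i => ∫ z in K, f i z * (g z * (e i z : ℂ))) atTop
      (𝓝 (∫ z in K, w z * (g z * (e0 z : ℂ)))) := by
  refine tendsto_of_tendsto_of_dist (hw _ (memLp_mul_real hK hg he0)) ?_
  set N : ℝ := (|B| + ∫ z in K, ‖g z‖ ^ 2) / 2 with hN
  have hN0 : 0 ≤ N := by
    have : 0 ≤ ∫ z in K, ‖g z‖ ^ 2 := integral_nonneg fun z => by positivity
    positivity
  rw [Metric.tendsto_atTop']
  intro ε hε
  rw [Metric.tendstoUniformlyOn_iff] at he
  have h1 := (he (ε / (N + 1)) (by positivity)).and hB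
  rw [eventually_atTop] at h1
  obtain ⟨i0, hi0⟩ := h1
  refine ⟨i0, fun i hi => ?_⟩
  obtain ⟨h2, h3⟩ := hi0 i hi.le
  rw [Real.dist_eq, sub_zero, abs_of_nonneg dist_nonneg]
  have hi1 : Integrable (fun z => f i z * (g z * (e0 z : ℂ))) (volume.restrict K) :=
    (hfm i).integrable_mul (memLp_mul_real hK hg he0)
  have hi2 : Integrable (fun z => f i z * (g z * (e i z : ℂ))) (volume.restrict K) :=
    (hfm i).integrable_mul (memLp_mul_real hK hg (hec i))
  rw [dist_eq_norm, ← integral_sub hi1 hi2]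
  have hsq : Integrable (fun z => (‖f i z‖ ^ 2 + ‖g z‖ ^ 2) / 2 * (ε / (N + 1)))
      (volume.restrict K) :=
    (((sq_of_memLp (hfm i)).add (sq_of_memLp hg)).div_const 2).mul_const _
  refine lt_of_le_of_lt (norm_integral_le_integral_norm _) ?_
  have h4 : ∫ z in K, ‖f i z * (g z * (e0 z : ℂ)) - f i z * (g z * (e i z : ℂ))‖
      ≤ ∫ z in K, (‖f i z‖ ^ 2 + ‖g z‖ ^ 2) / 2 * (ε / (N + 1)) := by
    refine integral_mono_of_nonneg (Eventually.of_forall fun z => norm_nonneg _) hsq ?_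
    refine (ae_restrict_iff' hK.measurableSet).2 (Eventually.of_forall fun z hz => ?_)
    have h5 := (h2 z hz).le
    rw [Real.dist_eq] at h5
    have h6 : f i z * (g z * (e0 z : ℂ)) - f i z * (g z * (e i z : ℂ))
        = f i z * g z * ((e0 z - e i z : ℝ) : ℂ) := by
      push_cast
      ring
    simp only
    rw [h6, norm_mul, norm_mul, Complex.norm_real, Real.norm_eq_abs]
    have h7 : ‖f i z‖ * ‖g z‖ ≤ (‖f i z‖ ^ 2 + ‖g z‖ ^ 2) / 2 := by
      nlinarith [sq_nonneg (‖f i z‖ - ‖g z‖)]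
    exact mul_le_mul h7 h5 (abs_nonneg _) (by positivity)
  refine lt_of_le_of_lt h4 ?_
  have h8 : ∫ z in K, (‖f i z‖ ^ 2 + ‖g z‖ ^ 2) / 2 * (ε / (N + 1)) ≤ N * (ε / (N + 1)) := by
    rw [integral_mul_const]
    refine mul_le_mul_of_nonneg_right ?_ (by positivity)
    rw [integral_div, integral_add (sq_of_memLp (hfm i)) (sq_of_memLp hg)]
    have := le_abs_self B
    linarith
  refine lt_of_le_of_lt h8 ?_
  rw [← mul_div_assoc, div_lt_iff₀ (by positivity)]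
  nlinarith

/-- the general Hermitian form -/
noncomputable def hfg {ι : Type} [Fintype ι] (A : Matrix ι ι ℂ) (ξ : ι → ℂ) : ℝ :=
  (∑ j, ∑ k, A j k * ξ j * star (ξ k)).re

theorem hf_reindex {ι : Type} [Fintype ι] {p : ℕ} (e : ι ≃ Fin p) (A : Matrix ι ι ℂ)
    (ξ : Fin p → ℂ) : hf (A.submatrix e.symm e.symm) ξ = hfg A (fun q => ξ (e q)) := by
  unfold hf hfg
  congr 1
  refine Fintype.sum_equiv e.symm _ _ fun a => ?_
  refine Fintype.sum_equiv e.symm _ _ fun b => ?_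
  simp only [Matrix.submatrix_apply, Equiv.apply_symm_apply]

/-- the block matrix -/
def Blk (H : Matrix (Fin m) (Fin m) ℂ) :
    Matrix (Fin m ⊕ (Fin m × Fin m)) (Fin m ⊕ (Fin m × Fin m)) ℂ :=
  Matrix.fromBlocks H 0 0 1

theorem hfg_blk (H : Matrix (Fin m) (Fin m) ℂ) (ξ : Fin m ⊕ (Fin m × Fin m) → ℂ) :
    hfg (Blk H) ξ = hf H (fun j => ξ (Sum.inl j)) + ∑ x, ‖ξ (Sum.inr x)‖ ^ 2 := by
  unfold hfg hf Blk
  rw [Fintype.sum_sum_type]
  simp only [Fintype.sum_sum_type, Matrix.fromBlocks_apply₁₁, Matrix.fromBlocks_apply₁₂,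
    Matrix.fromBlocks_apply₂₁, Matrix.fromBlocks_apply₂₂, Matrix.zero_apply, zero_mul,
    Finset.sum_const_zero, add_zero, zero_add, Complex.add_re]
  congr 1
  rw [Complex.re_sum]
  refine Finset.sum_congr rfl fun x _ => ?_
  rw [Finset.sum_eq_single x]
  · rw [Matrix.one_apply_eq, one_mul, Complex.star_def, Complex.mul_conj,
      Complex.ofReal_re, Complex.normSq_eq_norm_sq]
  · intro y _ hy
    rw [Matrix.one_apply_ne (Ne.symm hy), zero_mul, zero_mul]
  · intro h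
    exact absurd (Finset.mem_univ x) h

theorem psd_blk {p : ℕ} (e : Fin m ⊕ (Fin m × Fin m) ≃ Fin p) {H : Matrix (Fin m) (Fin m) ℂ}
    (hH : Psd H) : Psd ((Blk H).submatrix e.symm e.symm) := by
  refine ⟨?_, fun ξ => ?_⟩
  · refine Matrix.IsHermitian.submatrix ?_ _
    unfold Blk
    exact hH.1.fromBlocks Matrix.conjTranspose_zero Matrix.isHermitian_one
  · rw [hf_reindex, hfg_blk]
    have h1 := hH.2 (fun j => ξ (e (Sum.inl j)))
    have h2 : 0 ≤ ∑ x : Fin m × Fin m, ‖ξ (e (Sum.inr x))‖ ^ 2 :=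
      Finset.sum_nonneg fun x _ => by positivity
    linarith

/-- weak compactness for a finite index type -/
theorem wkc_gen (hWKC : StWKC) (ι : Type) [Fintype ι] (U : Set (Fin m → ℂ)) (hU : IsOpen U)
    (v : ℕ → ι → (Fin m → ℂ) → ℂ) (hm : ∀ i q, AEStronglyMeasurable (v i q) (volume.restrict U))
    (hb : ∀ K ⊆ U, IsCompact K → ∃ B : ℝ, ∀ᶠ i in atTop, ∀ q,
      IntegrableOn (fun z => ‖v i q z‖ ^ 2) K ∧ ∫ z in K, ‖v i q z‖ ^ 2 ≤ B) :
    ∃ (σ : ℕ → ℕ) (w : ι → (Fin m → ℂ) → ℂ), StrictMono σ ∧ (∀ q, L2loc U (w q)) ∧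
      ∀ K ⊆ U, IsCompact K → ∀ φ : (Fin m → ℂ) → ℂ, MemLp φ 2 (volume.restrict K) →
        ∀ q, Tendsto (fun i => ∫ z in K, v (σ i) q z * φ z) atTop
          (𝓝 (∫ z in K, w q z * φ z)) := by
  let e := Fintype.equivFin ι
  obtain ⟨σ, w, h1, h2, h3⟩ := hWKC m (Fintype.card ι) U hU (fun i q => v i (e.symm q))
    (fun i q => hm i _) (fun K hK hKc => by
      obtain ⟨B, hB⟩ := hb K hK hKc
      exact ⟨B, hB.mono fun i hi q => hi _⟩)
  refine ⟨σ, fun q => w (e q), h1, fun q => h2 _, fun K hK hKc φ hφ q => ?_⟩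
  have h4 := h3 K hK hKc φ hφ (e q)
  simpa only [Equiv.symm_apply_apply] using h4

end Pool.Agent.Helper36.KP
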