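import Mathlib
import Pool.Agent.Helper36.KP.LimC

/-!
# Project KP, module LIM: Fatou, exhaustion, local bounds
-/

set_option autoImplicit false

namespace Pool.Agent.Helper36.KP

open Pool.Agent.Helper52.KP MeasureTheory Filter
open scoped ContDiff ComplexOrder Topology

variable {m : ℕ}

/-- pointwise bounds -/
theorem sup_bound (hSUP : StSUP) {h : (Fin m → ℂ) → ℂ} (hd : Differentiable ℂ h) (R B : ℝ)
    (hB : ∫ z in Metric.closedBall (0 : Fin m → ℂ) (R + 1), ‖h z‖ ^ 2 ≤ B) (z : Fin m → ℂ)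
    (hz : ‖z‖ ≤ R) : Real.pi ^ m * ‖h z‖ ^ 2 ≤ B := by
  have hc : Continuous (fun z => ‖h z‖ ^ 2) := by
    have := hd.continuous
    fun_prop
  have hi : IntegrableOn (fun z => ‖h z‖ ^ 2) (Metric.closedBall (0 : Fin m → ℂ) (R + 1)) :=
    hc.continuousOn.integrableOn_compact (isCompact_closedBall _ _)
  have hsub : Metric.ball z 1 ⊆ Metric.closedBall (0 : Fin m → ℂ) (R + 1) := by
    intro x hx
    rw [Metric.mem_ball, dist_eq_norm] at hx
    rw [mem_closedBall_zero_iff]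
    have h1 : ‖x‖ ≤ ‖x - z‖ + ‖z‖ := by
      have := norm_add_le (x - z) z
      rwa [sub_add_cancel] at this
    linarith
  have h1 := (hSUP m z 1 one_pos h hd.differentiableOn (hi.mono_set hsub)).2
  rw [one_pow, mul_one] at h1
  refine h1.trans (le_trans ?_ hB)
  exact setIntegral_mono_set hi (Eventually.of_forall fun x => by positivity)
    (LE.le.eventuallyLE hsub)

/-- Fatou -/
theorem fatou_real {F : ℕ → (Fin m → ℂ) → ℝ} {F0 : (Fin m → ℂ) → ℝ}
    (hF : ∀ i, Integrable (F i) volume) (h0 : ∀ i z, 0 ≤ F i z)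
    (hF0m : AEStronglyMeasurable F0 volume)
    (hlim : ∀ᵐ z ∂(volume : Measure (Fin m → ℂ)), Tendsto (fun i => F i z) atTop (𝓝 (F0 z)))
    {N : ℝ} (hN : ∀ i, ∫ z, F i z ≤ N) : Integrable F0 volume ∧ ∫ z, F0 z ≤ N := by
  have hN0 : 0 ≤ N := (integral_nonneg (h0 0)).trans (hN 0)
  have hpos : 0 ≤ᵐ[volume] F0 := by
    filter_upwards [hlim] with z hz
    exact ge_of_tendsto' hz fun i => h0 i z
  have h1 : ∫⁻ z, ENNReal.ofReal (F0 z) ≤ ENNReal.ofReal N := by
    calc ∫⁻ z, ENNReal.ofReal (F0 z)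
        = ∫⁻ z, liminf (fun i => ENNReal.ofReal (F i z)) atTop := by
          refine lintegral_congr_ae ?_
          filter_upwards [hlim] with z hz
          exact ((ENNReal.continuous_ofReal.tendsto _).comp hz).liminf_eq.symm
      _ ≤ liminf (fun i => ∫⁻ z, ENNReal.ofReal (F i z)) atTop := by
          refine lintegral_liminf_le' fun i => ?_
          exact (hF i).1.aemeasurable.ennreal_ofReal
      _ ≤ ENNReal.ofReal N := by
          refine liminf_le_of_le (by isBoundedDefault) fun b hb => ?_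
          obtain ⟨i, hi⟩ := hb.exists
          refine hi.trans ?_
          rw [← ofReal_integral_eq_lintegral_ofReal (hF i) (Eventually.of_forall (h0 i))]
          exact ENNReal.ofReal_le_ofReal (hN i)
  have h2 : Integrable F0 volume := by
    refine ⟨hF0m, ?_⟩
    rw [hasFiniteIntegral_iff_ofReal hpos]
    exact lt_of_le_of_lt h1 ENNReal.ofReal_lt_top
  refine ⟨h2, ?_⟩
  rw [← ofReal_integral_eq_lintegral_ofReal h2 hpos] at h1
  exact (ENNReal.ofReal_le_ofReal_iff hN0).1 h1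

/-- exhaustion by compact sets -/
theorem exhaust {U : Set (Fin m → ℂ)} (hUo : IsOpen U) {F : (Fin m → ℂ) → ℝ}
    (h0 : ∀ z ∈ U, 0 ≤ F z) {N : ℝ}
    (hK : ∀ K ⊆ U, IsCompact K → IntegrableOn F K ∧ ∫ z in K, F z ≤ N) :
    IntegrableOn F U ∧ ∫ z in U, F z ≤ N := by
  obtain ⟨C, hCc, hCU, hCun, hCm⟩ := hUo.exists_iUnion_isClosed
  let Kn : ℕ → Set (Fin m → ℂ) := fun n => C n ∩ Metric.closedBall 0 (n : ℝ)
  have hKc : ∀ n, IsCompact (Kn n) := fun n => (isCompact_closedBall _ _).inter_left (hCc n)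
  have hKU : ∀ n, Kn n ⊆ U := fun n => Set.inter_subset_left.trans (hCU n)
  have hcov : AECover (volume.restrict U) atTop Kn := by
    refine ⟨?_, fun n => (hKc n).measurableSet⟩
    refine (ae_restrict_iff' hUo.measurableSet).2 (Eventually.of_forall fun z hz => ?_)
    rw [← hCun, Set.mem_iUnion] at hz
    obtain ⟨n0, hn0⟩ := hz
    filter_upwards [eventually_ge_atTop n0, eventually_ge_atTop (Nat.ceil ‖z‖)] with n h1 h2
    refine ⟨hCm h1 hn0, ?_⟩
    rw [mem_closedBall_zero_iff]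
    exact (Nat.le_ceil _).trans (by exact_mod_cast h2)
  have hres : ∀ n, (volume.restrict U).restrict (Kn n) = volume.restrict (Kn n) := by
    intro n
    rw [Measure.restrict_restrict (hKc n).measurableSet, Set.inter_eq_left.2 (hKU n)]
  have hint : Integrable F (volume.restrict U) := by
    refine hcov.integrable_of_integral_bounded_of_nonneg_ae N (fun n => ?_) ?_ ?_
    · show Integrable F ((volume.restrict U).restrict (Kn n))
      rw [hres]
      exact (hK _ (hKU n) (hKc n)).1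
    · exact (ae_restrict_iff' hUo.measurableSet).2 (Eventually.of_forall h0)
    · refine Eventually.of_forall fun n => ?_
      rw [hres]
      exact (hK _ (hKU n) (hKc n)).2
  refine ⟨hint, ?_⟩
  have h1 := hcov.integral_tendsto_of_countably_generated hint
  refine le_of_tendsto' h1 fun n => ?_
  rw [hres]
  exact (hK _ (hKU n) (hKc n)).2

/-- bound from a quadratic form -/
theorem form_bound {ψ T : (Fin m → ℂ) → ℝ} {f : (Fin m → ℂ) → ℂ} {K : Set (Fin m → ℂ)}
    (hK : MeasurableSet K) {B0 a N : ℝ} (ha : 0 < a) (hB : ∀ z ∈ K, ψ z ≤ B0)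
    (hf : IntegrableOn (fun z => ‖f z‖ ^ 2) K) (hT0 : ∀ z, 0 ≤ T z)
    (hT : Integrable (fun z => T z * Real.exp (-ψ z)) volume)
    (hTN : ∫ z, T z * Real.exp (-ψ z) ≤ N) (hle : ∀ z ∈ K, a * ‖f z‖ ^ 2 ≤ T z) :
    ∫ z in K, ‖f z‖ ^ 2 ≤ a⁻¹ * Real.exp B0 * N := by
  have h1 : ∀ z ∈ K, ‖f z‖ ^ 2 ≤ a⁻¹ * Real.exp B0 * (T z * Real.exp (-ψ z)) := by
    intro z hz
    have h2 : 1 ≤ Real.exp B0 * Real.exp (-ψ z) := by
      rw [← Real.exp_add]
      exact Real.one_le_exp (by linarith [hB z hz])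
    have h3 : ‖f z‖ ^ 2 ≤ a⁻¹ * T z := by
      rw [← mul_le_mul_iff_right₀ ha, ← mul_assoc, mul_inv_cancel₀ ha.ne', one_mul]
      exact hle z hz
    have h4 : 0 ≤ a⁻¹ * T z := mul_nonneg (by positivity) (hT0 z)
    calc ‖f z‖ ^ 2 ≤ a⁻¹ * T z := h3
      _ = a⁻¹ * T z * 1 := (mul_one _).symm
      _ ≤ a⁻¹ * T z * (Real.exp B0 * Real.exp (-ψ z)) := mul_le_mul_of_nonneg_left h2 h4
      _ = a⁻¹ * Real.exp B0 * (T z * Real.exp (-ψ z)) := by ring
  have hi : IntegrableOn (fun z => a⁻¹ * Real.exp B0 * (T z * Real.exp (-ψ z))) K :=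
    (hT.const_mul _).integrableOn
  refine (setIntegral_mono_on hf hi hK h1).trans ?_
  rw [integral_const_mul]
  refine mul_le_mul_of_nonneg_left (le_trans ?_ hTN) (by positivity)
  exact setIntegral_le_integral hT
    (Eventually.of_forall fun z => mul_nonneg (hT0 z) (Real.exp_pos _).le)

theorem memLp_cont {K : Set (Fin m → ℂ)} (hK : IsCompact K) {g : (Fin m → ℂ) → ℂ}
    (hg : ContinuousOn g K) : MemLp g 2 (volume.restrict K) := by
  refine memLp_of_sq (hg.aestronglyMeasurable hK.measurableSet) ?_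
  exact (hg.norm.pow 2).integrableOn_compact hK

theorem cont_db {k : Fin m} {φ : (Fin m → ℂ) → ℂ} (hφ : ContDiff ℝ ∞ φ) :
    Continuous (db k φ) := by
  have h1 : Continuous (fderiv ℝ φ) := hφ.continuous_fderiv (by simp)
  unfold db
  exact ((h1.clm_apply continuous_const).add
    (continuous_const.mul (h1.clm_apply continuous_const))).div_const 2

theorem db_zero {k : Fin m} {φ : (Fin m → ℂ) → ℂ} {z : Fin m → ℂ} (hz : z ∉ tsupport φ) :
    db k φ z = 0 := by
  have h1 : fderiv ℝ φ z = 0 := by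
    by_contra h
    exact hz (support_fderiv_subset ℝ h)
  unfold db
  rw [h1]
  simp

theorem set_int_K {K U : Set (Fin m → ℂ)} (hU : MeasurableSet U) (hKU : K ⊆ U)
    {F : (Fin m → ℂ) → ℂ} (hF : ∀ z ∉ K, F z = 0) : ∫ z in U, F z = ∫ z in K, F z :=
  setIntegral_eq_of_subset_of_forall_sdiff_eq_zero hU hKU fun z hz => hF z hz.2

/-- smoothness of the Hessian -/
theorem hes_cont (hCAL : StCAL) {U : Set (Fin m → ℂ)} (hU : IsOpen U) {u : (Fin m → ℂ) → ℝ}
    (hu : ContDiffOn ℝ ∞ u U) (j k : Fin m) : ContinuousOn (fun z => hes u z j k) U := by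
  have h1 : ContDiffOn ℝ ∞ (cf u) U := Complex.ofRealCLM.contDiff.comp_contDiffOn hu
  have h2 := ((hCAL m k k (cf u) (cf u) 0).2.2.2.2 U hU h1).2
  have h3 := ((hCAL m j j (db k (cf u)) (cf u) 0).2.2.2.2 U hU h2).1
  exact h3.continuousOn

end Pool.Agent.Helper36.KP
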