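import Pool.Agent.Helper93.KP.St

/-!
# Project KP, module EDV: from `n` to `e = vk n k / q`
-/

set_option autoImplicit false

namespace Pool.Agent.Helper36.KP

open Finset Filter Topology
open Pool.Agent.Helper93.KP

/-- the real inequalities -/
private lemma bounds (K A η P : ℝ) (hη : 0 < η) (hη1 : η ≤ 1 / 10) (hP : 0 < P) (hK : 1 ≤ K)
    (hA : 0 ≤ K * A - K ^ 2 - 1) :
    (⌊(K * A - K ^ 2 - 1) / P⌋₊ : ℕ) ≤ ⌊(4 * K * A - K ^ 2 - 1) / ((1 + η) ^ 2 * P)⌋₊ ∧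
    ((⌊(4 * K * A - K ^ 2 - 1) / ((1 + η) ^ 2 * P)⌋₊ : ℝ) - (⌊(K * A - K ^ 2 - 1) / P⌋₊ : ℝ)
      ≤ 4 * K * A / P) ∧
    ∀ q : ℝ, P < q → q ≤ (1 + η) ^ 2 * P →
      |(⌊(4 * K * A - K ^ 2 - 1) / ((1 + η) ^ 2 * P)⌋₊ : ℝ) - (⌊(K * A - K ^ 2 - 1) / P⌋₊ : ℝ)
        - 3 * K * A / q| ≤ 8 * η * K * A / P + (K ^ 2 + 1) / P + 1 := by
  have r0 : 0 < (1 + η) ^ 2 := by positivity
  have r1 : 1 ≤ (1 + η) ^ 2 := by nlinarith
  have r3 : (1 - 2 * η) * (1 + η) ^ 2 ≤ 1 := by nlinarith [sq_nonneg η, mul_pos hη (mul_pos hη hη)]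
  set s : ℝ := 1 / (1 + η) ^ 2 with hs
  have s0 : 0 < s := by positivity
  have s1 : s ≤ 1 := by rw [hs, div_le_one r0]; exact r1
  have s2 : 1 - 2 * η ≤ s := by rw [hs, le_div_iff₀ r0]; exact r3
  set w : ℝ := K * A / P with hw
  set z : ℝ := (K ^ 2 + 1) / P with hz
  have w0 : 0 ≤ w := by
    apply div_nonneg _ hP.le
    nlinarith
  have z0 : 0 ≤ z := by positivity
  have eu : (K * A - K ^ 2 - 1) / P = w - z := by
    rw [hw, hz]; field_simp; ring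
  have ev : (4 * K * A - K ^ 2 - 1) / ((1 + η) ^ 2 * P) = s * (4 * w - z) := by
    rw [hw, hz, hs]; field_simp; ring
  have huz : 0 ≤ w - z := by
    rw [← eu]; exact div_nonneg hA hP.le
  have huv : w - z ≤ s * (4 * w - z) := by
    have : 8 / 10 ≤ s := by linarith
    nlinarith
  rw [eu, ev]
  have f1 := Nat.floor_le huz
  have f2 := Nat.lt_floor_add_one (w - z)
  have f3 := Nat.floor_le (huz.trans huv)
  have f4 := Nat.lt_floor_add_one (s * (4 * w - z))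
  have e4 : 4 * K * A / P = 4 * w := by rw [hw]; ring
  have e8 : 8 * η * K * A / P = 8 * η * w := by rw [hw]; ring
  refine ⟨Nat.floor_le_floor huv, ?_, fun q hq1 hq2 => ?_⟩
  · rw [e4]
    have : s * (4 * w - z) ≤ 4 * w := by nlinarith
    have : (0 : ℝ) ≤ (⌊w - z⌋₊ : ℝ) := Nat.cast_nonneg _
    linarith
  · have q0 : 0 < q := hP.trans hq1
    have hKA : 0 ≤ K * A := by nlinarith
    have y1 : 3 * K * A / q ≤ 3 * w := by
      rw [hw, mul_assoc, mul_div_assoc]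
      have := div_le_div_of_nonneg_left hKA hP hq1.le
      linarith
    have y2 : 3 * s * w ≤ 3 * K * A / q := by
      have : s * w = K * A / ((1 + η) ^ 2 * P) := by
        rw [hw, hs]; field_simp
      have h2 := div_le_div_of_nonneg_left hKA q0 hq2
      rw [mul_assoc 3 K A, mul_div_assoc, mul_assoc, this]
      linarith
    rw [e8, abs_le]
    constructor
    · nlinarith [mul_nonneg (sub_nonneg.2 s2) w0, mul_nonneg (sub_nonneg.2 s1) z0]
    · nlinarith [mul_nonneg (sub_nonneg.2 s1) w0, mul_nonneg s0.le z0, mul_nonneg hη.le w0]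

/-- the congruences for `e` -/
private lemma cong_iff (d ν k k' n q q' e : ℕ) (hk : 1 ≤ k) (hkn : k < n)
    (hk' : 1 ≤ k') (hkn' : k' < n) (hν : ν < d) (hq' : Nat.Coprime q' k)
    (he : vk n k = q * e) :
    (((k * d : ℕ) : ℤ) ∣ (q : ℤ) * e - ((k : ℤ) * ν - (k : ℤ) ^ 2 - 1) ∧
      (q' : ℤ) ∣ (k' : ℤ) * (q : ℤ) * e - ((k' : ℤ) - k) * ((k : ℤ) * k' - 1)) ↔
    (n % d = ν ∧ q' ∣ vk n k') := by
  have h1 : (q : ℤ) * e = gk n k := by
    rw [← vk_cast n k hk hkn, he]; push_cast; ring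
  have hk0 : (k : ℤ) ≠ 0 := by exact_mod_cast (by omega : k ≠ 0)
  have h2 : (q : ℤ) * e - ((k : ℤ) * ν - (k : ℤ) ^ 2 - 1) = k * ((n : ℤ) - ν) := by
    rw [h1]; unfold gk; ring
  have h3 : (k' : ℤ) * (q : ℤ) * e - ((k' : ℤ) - k) * ((k : ℤ) * k' - 1) = k * gk n k' := by
    rw [mul_assoc, h1]; unfold gk; ring
  rw [h2, h3, dvd_vk n k' q' hk' hkn']
  constructor
  · rintro ⟨a, b⟩
    constructor
    · have : (d : ℤ) ∣ (n : ℤ) - ν := by
        push_cast at a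
        exact (mul_dvd_mul_iff_left hk0).1 a
      have h4 : ν ≡ n [MOD d] := (Nat.modEq_iff_dvd).2 this
      have h5 : ν % d = n % d := h4
      rw [← h5, Nat.mod_eq_of_lt hν]
    · have hco : IsCoprime (q' : ℤ) (k : ℤ) := by exact_mod_cast Nat.Coprime.isCoprime hq'
      exact hco.dvd_of_dvd_mul_left b
  · rintro ⟨a, b⟩
    constructor
    · push_cast
      apply mul_dvd_mul_left
      have h4 : ν ≡ n [MOD d] := by
        show ν % d = n % d
        rw [a, Nat.mod_eq_of_lt hν]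
      exact (Nat.modEq_iff_dvd).1 h4
    · exact b.mul_left _

/-- the counting argument -/
private lemma counting (a d ν k k' q q' E₁ E₂ : ℕ) (Eg : Finset ℕ) (hk : 1 ≤ k)
    (hk' : 1 ≤ k') (hν : ν < d) (hq : 1 ≤ q) (hq'c : Nat.Coprime q' k)
    (hlt : ∀ n : ℕ, a ^ 2 < n → k < n ∧ k' < n)
    (hin : ∀ e n : ℕ, E₁ < e → e ≤ E₂ → q * e + k ^ 2 + 1 = k * n → n ∈ NN a)
    (hout : ∀ e n : ℕ, ¬ (E₁ < e ∧ e ≤ E₂) → q * e + k ^ 2 + 1 = k * n → n ∈ NN a →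
      q ∣ vk n k → q' ∣ vk n k' → n ∈ Eg) :
    |(cn a d ν k k' q q' : ℝ) -
      (((Ioc E₁ E₂).filter (fun e : ℕ => ((k * d : ℕ) : ℤ) ∣ (q : ℤ) * e - ((k : ℤ) * ν - (k : ℤ) ^ 2 - 1) ∧
        (q' : ℤ) ∣ (k' : ℤ) * (q : ℤ) * e - ((k' : ℤ) - k) * ((k : ℤ) * k' - 1))).card : ℝ)| ≤
      (Eg.card : ℝ) := by
  classical
  set T := (Ioc E₁ E₂).filter (fun e : ℕ => ((k * d : ℕ) : ℤ) ∣ (q : ℤ) * e - ((k : ℤ) * ν - (k : ℤ) ^ 2 - 1) ∧
        (q' : ℤ) ∣ (k' : ℤ) * (q : ℤ) * e - ((k' : ℤ) - k) * ((k : ℤ) * k' - 1)) with hT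
  set S := (NN a).filter (fun n => n % d = ν ∧ q ∣ vk n k ∧ q' ∣ vk n k') with hS
  have hcn : cn a d ν k k' q q' = S.card := rfl
  -- relation between `n` and `e`
  have hrel : ∀ n e : ℕ, k < n → (vk n k = q * e ↔ q * e + k ^ 2 + 1 = k * n) := by
    intro n e hn
    have h1 := vk_cast n k hk hn
    unfold gk at h1
    constructor
    · intro h
      rw [h] at h1
      zify
      push_cast at h1
      linarith
    · intro h
      zify at h ⊢
      linarith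
  have hNN : ∀ n, n ∈ NN a → a ^ 2 < n := fun n hn => (mem_Ioc.1 hn).1
  have hc1 : T.card ≤ S.card := by
    apply Finset.card_le_card_of_surjOn (fun n => vk n k / q)
    intro e he
    have he' : e ∈ T := he
    obtain ⟨heI, hd1, hd2⟩ := mem_filter.1 he'
    obtain ⟨hI1, hI2⟩ := mem_Ioc.1 heI
    have hkd : (k : ℤ) ∣ ((q * e + k ^ 2 + 1 : ℕ) : ℤ) := by
      have h1 : (k : ℤ) ∣ (q : ℤ) * e - ((k : ℤ) * ν - (k : ℤ) ^ 2 - 1) :=
        (Dvd.intro (d : ℤ) (by push_cast; ring)).trans hd1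
      have h2 : ((q * e + k ^ 2 + 1 : ℕ) : ℤ) =
          ((q : ℤ) * e - ((k : ℤ) * ν - (k : ℤ) ^ 2 - 1)) + k * ν := by push_cast; ring
      rw [h2]
      exact dvd_add h1 (Dvd.intro _ rfl)
    obtain ⟨n, hn⟩ := Int.natCast_dvd_natCast.1 hkd
    have hnN := hin e n hI1 hI2 hn
    obtain ⟨hkn, hkn'⟩ := hlt n (hNN n hnN)
    have hv : vk n k = q * e := (hrel n e hkn).2 hn
    obtain ⟨c1, c2⟩ := (cong_iff d ν k k' n q q' e hk hkn hk' hkn' hν hq'c hv).1 ⟨hd1, hd2⟩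
    refine ⟨n, ?_, ?_⟩
    · exact mem_filter.2 ⟨hnN, c1, ⟨e, hv⟩, c2⟩
    · show vk n k / q = e
      rw [hv, Nat.mul_div_cancel_left e hq]
  have hc2 : S.card ≤ T.card + Eg.card := by
    rw [← Finset.card_filter_add_card_filter_not (s := S) (fun n => E₁ < vk n k / q ∧ vk n k / q ≤ E₂)]
    apply Nat.add_le_add
    · apply Finset.card_le_card_of_injOn (fun n => vk n k / q)
      · intro n hn
        have hn' : n ∈ S.filter (fun n => E₁ < vk n k / q ∧ vk n k / q ≤ E₂) := hn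
        obtain ⟨hnS, hI⟩ := mem_filter.1 hn'
        obtain ⟨hnN, c1, c2, c3⟩ := mem_filter.1 hnS
        obtain ⟨hkn, hkn'⟩ := hlt n (hNN n hnN)
        have hv : vk n k = q * (vk n k / q) := (Nat.mul_div_cancel' c2).symm
        have := (cong_iff d ν k k' n q q' (vk n k / q) hk hkn hk' hkn' hν hq'c hv).2 ⟨c1, c3⟩
        exact mem_filter.2 ⟨mem_Ioc.2 hI, this⟩
      · intro n hn m hm hnm
        have hn' : n ∈ S.filter (fun n => E₁ < vk n k / q ∧ vk n k / q ≤ E₂) := hn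
        have hm' : m ∈ S.filter (fun n => E₁ < vk n k / q ∧ vk n k / q ≤ E₂) := hm
        obtain ⟨hnN, c1, c2, c3⟩ := mem_filter.1 (mem_filter.1 hn').1
        obtain ⟨hmN, c1', c2', c3'⟩ := mem_filter.1 (mem_filter.1 hm').1
        have hv : vk n k = q * (vk n k / q) := (Nat.mul_div_cancel' c2).symm
        have hv' : vk m k = q * (vk m k / q) := (Nat.mul_div_cancel' c2').symm
        have hnm' : vk n k / q = vk m k / q := hnm
        have e1 := (hrel n _ (hlt n (hNN n hnN)).1).1 hv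
        have e2 := (hrel m _ (hlt m (hNN m hmN)).1).1 hv'
        rw [hnm', e2] at e1
        exact (Nat.eq_of_mul_eq_mul_left hk e1).symm
    · apply Finset.card_le_card
      intro n hn
      obtain ⟨hnS, hI⟩ := mem_filter.1 hn
      obtain ⟨hnN, c1, c2, c3⟩ := mem_filter.1 hnS
      have hv : vk n k = q * (vk n k / q) := (Nat.mul_div_cancel' c2).symm
      have e1 := (hrel n _ (hlt n (hNN n hnN)).1).1 hv
      exact hout _ n hI e1 hnN c2 c3
  rw [hcn]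
  have h1 : (T.card : ℝ) ≤ S.card := by exact_mod_cast hc1
  have h2 : (S.card : ℝ) ≤ T.card + Eg.card := by exact_mod_cast hc2
  rw [abs_le]
  constructor <;> linarith [(Nat.cast_nonneg Eg.card : (0 : ℝ) ≤ Eg.card)]

theorem hEDV : StEDV := by
  intro a d ν k k' η P ha hd hν hk hka hk' hk'a hη hη1 hP
  have hkR : (1 : ℝ) ≤ (k : ℝ) := by exact_mod_cast hk
  have haR : (2 : ℝ) ≤ (a : ℝ) := by exact_mod_cast ha
  have hkaR : (k : ℝ) ≤ (a : ℝ) := by exact_mod_cast hka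
  have hA : 0 ≤ (k : ℝ) * (a : ℝ) ^ 2 - (k : ℝ) ^ 2 - 1 := by
    have h1 : (k : ℝ) + 1 ≤ (a : ℝ) ^ 2 := by nlinarith
    nlinarith
  obtain ⟨b1, b2, b3⟩ := bounds (k : ℝ) ((a : ℝ) ^ 2) η P hη hη1 hP hkR hA
  set E₁ : ℕ := ⌊((k : ℝ) * (a : ℝ) ^ 2 - (k : ℝ) ^ 2 - 1) / P⌋₊ with hE₁
  set E₂ : ℕ := ⌊(4 * (k : ℝ) * (a : ℝ) ^ 2 - (k : ℝ) ^ 2 - 1) / ((1 + η) ^ 2 * P)⌋₊ with hE₂
  have hlt : ∀ n : ℕ, a ^ 2 < n → ∀ j : ℕ, j ≤ a → j < n := by
    intro n hn j hj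
    nlinarith
  refine ⟨E₁, E₂, b1, b2, fun q q' hq1 hq2 hqc hq' hq'c => ⟨?_, ?_⟩⟩
  · have hqR : 0 < (q : ℝ) := hP.trans hq1
    have hq1' : 1 ≤ q := by
      have : 0 < q := by exact_mod_cast hqR
      exact this
    have r0 : 0 < (1 + η) ^ 2 := by positivity
    have r3 : (1 - 2 * η) * (1 + η) ^ 2 ≤ 1 := by
      nlinarith [sq_nonneg η, mul_pos hη (mul_pos hη hη)]
    have r4 : (1 + η) ^ 2 ≤ 1 + 3 * η := by nlinarith
    have hA2 : 0 ≤ 4 * (k : ℝ) * (a : ℝ) ^ 2 - (k : ℝ) ^ 2 - 1 := by nlinarith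
    have hrP : 0 < (1 + η) ^ 2 * P := by positivity
    apply counting a d ν k k' q q' E₁ E₂ _ hk hk' hν hq1' hq'c
      (fun n hn => ⟨hlt n hn k hka, hlt n hn k' hk'a⟩)
    · intro e n he1 he2 hen
      have henR : (q : ℝ) * e + (k : ℝ) ^ 2 + 1 = k * n := by exact_mod_cast hen
      have g1 : ((k : ℝ) * (a : ℝ) ^ 2 - (k : ℝ) ^ 2 - 1) / P < e := Nat.lt_of_floor_lt he1
      have g2 : (e : ℝ) ≤ (4 * (k : ℝ) * (a : ℝ) ^ 2 - (k : ℝ) ^ 2 - 1) / ((1 + η) ^ 2 * P) :=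
        (Nat.le_floor_iff (by positivity)).1 he2
      rw [div_lt_iff₀ hP] at g1
      rw [le_div_iff₀ hrP] at g2
      have e0 : (0 : ℝ) ≤ e := Nat.cast_nonneg e
      have g3 : (e : ℝ) * P ≤ e * q := mul_le_mul_of_nonneg_left hq1.le e0
      have g4 : (e : ℝ) * q ≤ e * ((1 + η) ^ 2 * P) := mul_le_mul_of_nonneg_left hq2 e0
      refine mem_Ioc.2 ⟨?_, ?_⟩
      · have : (k : ℝ) * (a : ℝ) ^ 2 < k * n := by linarith
        have : (a : ℝ) ^ 2 < n := lt_of_mul_lt_mul_left this (by linarith)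
        exact_mod_cast this
      · have : (k : ℝ) * n ≤ k * (4 * (a : ℝ) ^ 2) := by linarith
        have : (n : ℝ) ≤ 4 * (a : ℝ) ^ 2 := le_of_mul_le_mul_left this (by linarith)
        exact_mod_cast this
    · intro e n hI hen hnN hd1 hd2
      refine mem_filter.2 ⟨hnN, ?_, hd1, hd2⟩
      have henR : (q : ℝ) * e + (k : ℝ) ^ 2 + 1 = k * n := by exact_mod_cast hen
      have e0 : (0 : ℝ) ≤ e := Nat.cast_nonneg e
      have g3 : (e : ℝ) * P ≤ e * q := mul_le_mul_of_nonneg_left hq1.le e0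
      have g4 : (e : ℝ) * q ≤ e * ((1 + η) ^ 2 * P) := mul_le_mul_of_nonneg_left hq2 e0
      rcases le_or_gt e E₁ with he | he
      · left
        have g1 : (e : ℝ) ≤ ((k : ℝ) * (a : ℝ) ^ 2 - (k : ℝ) ^ 2 - 1) / P :=
          (Nat.le_floor_iff (by positivity)).1 he
        rw [le_div_iff₀ hP] at g1
        have g5 : (e : ℝ) * q ≤ (1 + η) ^ 2 * ((k : ℝ) * (a : ℝ) ^ 2 - (k : ℝ) ^ 2 - 1) := by
          have := mul_le_mul_of_nonneg_left g1 r0.le
          linarith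
        have g6 : (1 + η) ^ 2 * ((k : ℝ) * (a : ℝ) ^ 2 - (k : ℝ) ^ 2 - 1) ≤
            (1 + 3 * η) * ((k : ℝ) * (a : ℝ) ^ 2) := by
          have h1 := mul_le_mul_of_nonneg_right r4 hA
          have h2 : (1 + 3 * η) * ((k : ℝ) * (a : ℝ) ^ 2 - (k : ℝ) ^ 2 - 1) ≤
              (1 + 3 * η) * ((k : ℝ) * (a : ℝ) ^ 2) :=
            mul_le_mul_of_nonneg_left (by nlinarith) (by linarith)
          linarith
        have : (k : ℝ) * n ≤ k * ((a : ℝ) ^ 2 + 3 * η * a ^ 2 + k + 1) := by nlinarith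
        exact le_of_mul_le_mul_left this (by linarith)
      · right
        have he2 : E₂ < e := by
          by_contra h
          exact hI ⟨he, not_lt.1 h⟩
        have g1 : (4 * (k : ℝ) * (a : ℝ) ^ 2 - (k : ℝ) ^ 2 - 1) / ((1 + η) ^ 2 * P) < e :=
          Nat.lt_of_floor_lt he2
        rw [div_lt_iff₀ hrP] at g1
        have g5 : (4 * (k : ℝ) * (a : ℝ) ^ 2 - (k : ℝ) ^ 2 - 1) ≤ (1 + η) ^ 2 * (e * q) := by
          have := mul_le_mul_of_nonneg_left g3 r0.le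
          linarith
        have g6 : (1 - 2 * η) * (4 * (k : ℝ) * (a : ℝ) ^ 2 - (k : ℝ) ^ 2 - 1) ≤ e * q := by
          have h1 := mul_le_mul_of_nonneg_left g5 (by linarith : 0 ≤ 1 - 2 * η)
          have h2 := mul_le_mul_of_nonneg_right r3 (mul_nonneg e0 hqR.le)
          linarith
        have : (k : ℝ) * (4 * (a : ℝ) ^ 2 - 8 * η * a ^ 2) ≤ k * n := by nlinarith
        exact le_of_mul_le_mul_left this (by linarith)
  · have hqR : 0 < (q : ℝ) := hP.trans hq1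
    have hdR : (0 : ℝ) < (d : ℝ) := by exact_mod_cast hd
    have hq'R : (0 : ℝ) < (q' : ℝ) := by exact_mod_cast hq'
    have hk0 : (0 : ℝ) < (k : ℝ) := by linarith
    have e1 : ((E₂ : ℝ) - E₁) / (((k * d : ℕ) : ℝ) * q') - 3 * (a : ℝ) ^ 2 / (d * q * q')
        = ((E₂ : ℝ) - E₁ - 3 * k * (a : ℝ) ^ 2 / q) / (((k * d : ℕ) : ℝ) * q') := by
      push_cast
      field_simp
    have hpos : 0 < ((k * d : ℕ) : ℝ) * q' := by push_cast; positivity
    rw [e1, abs_div, abs_of_pos hpos]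
    exact div_le_div_of_nonneg_right (b3 q hq1 hq2) hpos.le

end Pool.Agent.Helper36.KP
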