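import Mathlib
import Pool.Agent.Helper36.KP.LimD

/-!
# Project KP, module LIM: limit of the solutions of the dbar problem
-/

set_option autoImplicit false

namespace Pool.Agent.Helper36.KP

open Pool.Agent.Helper52.KP MeasureTheory Filter
open scoped ContDiff ComplexOrder Topology

theorem hLIM (hWKC : StWKC) (hLSC : StLSC) (hMON : StMON) (hSUP : StSUP) (hCAL : StCAL) :
    StLIM := by
  classical
  intro m U hUo hU u ψ hu hPd hψ hPsd huψ hψB hconv G hG v γ h hv hγ hh
  have hψc : ∀ i, Continuous (ψ i) := fun i => (hψ i).continuous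
  have hUm : MeasurableSet U := hUo.measurableSet
  have hae : ∀ᵐ z ∂(volume : Measure (Fin m → ℂ)), z ∈ U := mem_ae_iff.2 hU
  have huc : ContinuousOn u U := hu.continuousOn
  have hum : AEStronglyMeasurable (fun z => Real.exp (-u z)) volume := by
    have h1 : AEStronglyMeasurable (fun z => Real.exp (-u z)) (volume.restrict U) :=
      (Real.continuous_exp.comp_continuousOn huc.neg).aestronglyMeasurable hUm
    rwa [restrict_of_null hU] at h1
  set M := nrm U u G with hM
  have hM0 : 0 ≤ M := by
    rw [hM, nrm_U hU]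
    exact integral_nonneg fun z => by positivity
  have hGi : ∀ i, L2 Set.univ (ψ i) G ∧ nrm Set.univ (ψ i) G ≤ M := fun i =>
    cmp_weight hU (hψc i) (huψ i) hG
  have hhd : ∀ i, Differentiable ℂ (h i) := fun i => (hh i).1
  have hhL : ∀ i, L2 Set.univ (ψ i) (h i) := fun i => (hh i).2.1
  have horth : ∀ i, ∀ h' : (Fin m → ℂ) → ℂ, Differentiable ℂ h' → L2 Set.univ (ψ i) h' →
      inn Set.univ (ψ i) (fun z => G z - h i z) h' = 0 := fun i => (hh i).2.2.2.2.2
  have hMi : ∀ i, nrm Set.univ (ψ i) (fun z => G z - h i z) ≤ M ∧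
      nrm Set.univ (ψ i) (h i) ≤ 4 * M := by
    intro i
    obtain ⟨h1, h2⟩ := nrm_h_le (hψc i) (hGi i).1 (hhd i) (hhL i) (horth i)
    exact ⟨h1.trans (hGi i).2, h2.trans (by linarith [(hGi i).2])⟩
  have hKb : ∀ K : Set (Fin m → ℂ), IsCompact K → ∃ B0, ∀ i, ∀ z ∈ K, ψ i z ≤ B0 := by
    intro K hK
    obtain ⟨R, hR⟩ := hK.isBounded.exists_norm_le
    obtain ⟨B, hB⟩ := hψB R
    exact ⟨B, fun i z hz => hB i z (hR z hz)⟩
  have hhK : ∀ K : Set (Fin m → ℂ), IsCompact K → ∃ B : ℝ, ∀ i, ∫ z in K, ‖h i z‖ ^ 2 ≤ B := by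
    intro K hK
    obtain ⟨B0, hB0⟩ := hKb K hK
    refine ⟨Real.exp B0 * (4 * M), fun i => ?_⟩
    exact (loc_bound (hhL i) hK.measurableSet (hB0 i)).2.trans
      (mul_le_mul_of_nonneg_left (hMi i).2 (Real.exp_pos _).le)
  obtain ⟨σ₁, h', hσ₁, hh', hlim⟩ := hMON m h hhd fun K hK => by
    obtain ⟨B, hB⟩ := hhK K hK
    exact ⟨B, Eventually.of_forall hB⟩
  -- the family
  let V : ℕ → (Fin m ⊕ (Fin m × Fin m)) → (Fin m → ℂ) → ℂ := fun i q =>
    Sum.elim (fun j => v i j) (fun x => γ i x.1 x.2) q
  have hVL : ∀ i q, L2 Set.univ (ψ i) (V i q) := by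
    rintro i (j | x)
    · exact hv i j
    · exact (hγ i x.1 x.2).1
  let T : ℕ → (Fin m → ℂ) → ℝ := fun i z => hf (hes (ψ i) z) (fun j => v i j z)
    + ∑ x : Fin m × Fin m, ‖γ i x.1 x.2 z‖ ^ 2
  have hT0 : ∀ i z, 0 ≤ T i z := fun i z => add_nonneg ((hPsd i z).2 _)
    (Finset.sum_nonneg fun x _ => by positivity)
  have hTint : ∀ i, Integrable (fun z => T i z * Real.exp (-ψ i z)) volume ∧
      ∫ z, T i z * Real.exp (-ψ i z) ≤ nrm Set.univ (ψ i) (fun z => G z - h i z) := by
    intro i
    have e1 : (fun z => T i z * Real.exp (-ψ i z)) = fun z =>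
        hf (hes (ψ i) z) (fun j => v i j z) * Real.exp (-ψ i z)
          + ∑ x : Fin m × Fin m, ‖γ i x.1 x.2 z‖ ^ 2 * Real.exp (-ψ i z) := by
      funext z
      show (_ + _) * _ = _
      rw [add_mul, Finset.sum_mul]
    have i1 : Integrable (fun z => hf (hes (ψ i) z) (fun j => v i j z) * Real.exp (-ψ i z))
        volume := (hh i).2.2.2.1
    have i2 : ∀ x : Fin m × Fin m, Integrable (fun z => ‖γ i x.1 x.2 z‖ ^ 2
        * Real.exp (-ψ i z)) volume := fun x => ((L2_iff _ _).1 (hγ i x.1 x.2).1).2
    have i3 : Integrable (fun z => ∑ x : Fin m × Fin m, ‖γ i x.1 x.2 z‖ ^ 2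
        * Real.exp (-ψ i z)) volume := integrable_finsetSum _ fun x _ => i2 x
    rw [e1]
    refine ⟨i1.add i3, ?_⟩
    rw [integral_add i1 i3, integral_finsetSum _ fun x _ => i2 x]
    have h1 := (hh i).2.2.2.2.1
    have h2 : ∑ x : Fin m × Fin m, ∫ z, ‖γ i x.1 x.2 z‖ ^ 2 * Real.exp (-ψ i z)
        = ∑ j, ∑ k, nrm Set.univ (ψ i) (γ i k j) := by
      rw [Fintype.sum_prod_type, Finset.sum_comm]
      refine Finset.sum_congr rfl fun j _ => Finset.sum_congr rfl fun k _ => ?_
      rw [nrm_univ]
    rw [h2]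
    linarith
  -- local bounds for the family
  have hVK : ∀ K ⊆ U, IsCompact K → ∃ B : ℝ, ∀ᶠ i in atTop, ∀ q,
      IntegrableOn (fun z => ‖V i q z‖ ^ 2) K ∧ ∫ z in K, ‖V i q z‖ ^ 2 ≤ B := by
    intro K hKU hK
    obtain ⟨B0, hB0⟩ := hKb K hK
    obtain ⟨c, hc, hcoer⟩ := coercive hK (hes u)
      (fun j k => (hes_cont hCAL hUo hu j k).mono hKU) (fun z hz => hPd z (hKU hz))
      (fun i => hes (ψ i)) (fun j k => (hconv K hKU hK).2 j k)
    have ha : 0 < min c 1 := lt_min hc one_pos
    refine ⟨(min c 1)⁻¹ * Real.exp B0 * M, hcoer.mono fun i hi q => ?_⟩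
    have h1 := loc_bound (hVL i q) hK.measurableSet (hB0 i)
    refine ⟨h1.1, form_bound hK.measurableSet ha (hB0 i) h1.1 (hT0 i) (hTint i).1
      ((hTint i).2.trans (hMi i).1) fun z hz => ?_⟩
    have h3 : 0 ≤ hf (hes (ψ i) z) (fun j => v i j z) := (hPsd i z).2 _
    rcases q with j | x
    · have h2 := hi z hz (fun j => v i j z)
      have h4 : ‖V i (Sum.inl j) z‖ ≤ ‖(fun j => v i j z)‖ :=
        norm_le_pi_norm (fun j => v i j z) j
      have h5 : 0 ≤ ∑ x : Fin m × Fin m, ‖γ i x.1 x.2 z‖ ^ 2 :=
        Finset.sum_nonneg fun x _ => by positivity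
      have h6 : ‖V i (Sum.inl j) z‖ ^ 2 ≤ ‖(fun j => v i j z)‖ ^ 2 :=
        pow_le_pow_left₀ (norm_nonneg _) h4 2
      calc min c 1 * ‖V i (Sum.inl j) z‖ ^ 2 ≤ c * ‖(fun j => v i j z)‖ ^ 2 :=
            mul_le_mul (min_le_left _ _) h6 (by positivity) hc.le
        _ ≤ hf (hes (ψ i) z) (fun j => v i j z) := h2
        _ ≤ T i z := le_add_of_nonneg_right h5
    · have h5 : ‖V i (Sum.inr x) z‖ ^ 2 ≤ ∑ x : Fin m × Fin m, ‖γ i x.1 x.2 z‖ ^ 2 :=
        Finset.single_le_sum (f := fun x : Fin m × Fin m => ‖γ i x.1 x.2 z‖ ^ 2)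
          (fun x _ => by positivity) (Finset.mem_univ x)
      calc min c 1 * ‖V i (Sum.inr x) z‖ ^ 2 ≤ 1 * ‖V i (Sum.inr x) z‖ ^ 2 :=
            mul_le_mul_of_nonneg_right (min_le_right _ _) (by positivity)
        _ = ‖V i (Sum.inr x) z‖ ^ 2 := one_mul _
        _ ≤ T i z := h5.trans (le_add_of_nonneg_left h3)
  obtain ⟨σ₂, w, hσ₂, hwL, hw⟩ := wkc_gen hWKC _ U hUo (fun i => V (σ₁ i))
    (fun i q => ((L2_iff _ _).1 (hVL (σ₁ i) q)).1.restrict) (fun K hKU hK => by
      obtain ⟨B, hB⟩ := hVK K hKU hK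
      exact ⟨B, hσ₁.tendsto_atTop.eventually hB⟩)
  set σ : ℕ → ℕ := fun i => σ₁ (σ₂ i) with hσdef
  have hσ : StrictMono σ := hσ₁.comp hσ₂
  have hlimσ : ∀ z, Tendsto (fun i => h (σ i) z) atTop (𝓝 (h' z)) := fun z =>
    (hlim z).comp hσ₂.tendsto_atTop
  have hcσ : ∀ K ⊆ U, IsCompact K → TendstoUniformlyOn (fun i => ψ (σ i)) u atTop K ∧
      ∀ j k, TendstoUniformlyOn (fun i z => hes (ψ (σ i)) z j k) (fun z => hes u z j k)
        atTop K := by
    intro K hKU hK
    obtain ⟨h1, h2⟩ := hconv K hKU hK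
    exact ⟨fun s hs => hσ.tendsto_atTop.eventually (h1 s hs),
      fun j k s hs => hσ.tendsto_atTop.eventually (h2 j k s hs)⟩
  have hψlim : ∀ z ∈ U, Tendsto (fun i => ψ (σ i) z) atTop (𝓝 (u z)) := by
    intro z hz
    exact (hcσ {z} (Set.singleton_subset_iff.2 hz) isCompact_singleton).1.tendsto_at
      (Set.mem_singleton z)
  -- Fatou
  have hfat : ∀ N : ℝ, (∀ i, nrm Set.univ (ψ (σ i)) (fun z => G z - h (σ i) z) ≤ N) →
      Integrable (fun z => ‖G z - h' z‖ ^ 2 * Real.exp (-u z)) volume ∧
      ∫ z, ‖G z - h' z‖ ^ 2 * Real.exp (-u z) ≤ N := by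
    intro N hN
    have hGm : AEStronglyMeasurable G volume := ((L2_U_iff hU _ _).1 hG).1
    refine fatou_real (F := fun i z => ‖G z - h (σ i) z‖ ^ 2 * Real.exp (-ψ (σ i) z))
      (fun i => ((L2_iff _ _).1 (L2_sub (hψc _) (hGi _).1 (hhL _))).2)
      (fun i z => by positivity) ?_ ?_ (fun i => ?_)
    · exact ((hGm.sub hh'.continuous.aestronglyMeasurable).norm.pow 2).mul hum
    · filter_upwards [hae] with z hz
      have h1 : Tendsto (fun i => Real.exp (-ψ (σ i) z)) atTop (𝓝 (Real.exp (-u z))) :=
        (Real.continuous_exp.tendsto _).comp (hψlim z hz).neg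
      exact ((tendsto_const_nhds.sub (hlimσ z)).norm.pow 2).mul h1
    · have h1 := hN i
      rw [nrm_univ] at h1
      exact h1
  have hGh : L2 U u (fun z => G z - h' z) := by
    rw [L2_U_iff hU]
    refine ⟨((L2_U_iff hU _ _).1 hG).1.sub hh'.continuous.aestronglyMeasurable, ?_⟩
    exact (hfat M fun i => (hMi _).1).1
  have hh'L : L2 U u h' := by
    have h1 := (L2_U_iff hU _ _).1 hGh
    have h2 := (L2_U_iff hU _ _).1 hG
    rw [L2_U_iff hU]
    refine ⟨hh'.continuous.aestronglyMeasurable, ?_⟩
    refine ((h2.2.add h1.2).const_mul 2).mono'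
      ((hh'.continuous.aestronglyMeasurable.norm.pow 2).mul hum)
      (Eventually.of_forall fun z => ?_)
    rw [Real.norm_eq_abs, abs_of_nonneg (by positivity)]
    have h3 : ‖h' z‖ ≤ ‖G z‖ + ‖G z - h' z‖ := by
      have h4 := norm_sub_le (G z) (G z - h' z)
      rwa [sub_sub_cancel] at h4
    have h5 : ‖h' z‖ ^ 2 ≤ 2 * ‖G z‖ ^ 2 + 2 * ‖G z - h' z‖ ^ 2 := by
      nlinarith [sq_nonneg (‖G z‖ - ‖G z - h' z‖), norm_nonneg (h' z), norm_nonneg (G z),
        norm_nonneg (G z - h' z)]
    have hpos : 0 < Real.exp (-u z) := Real.exp_pos _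
    show ‖h' z‖ ^ 2 * Real.exp (-u z) ≤ 2 * (‖G z‖ ^ 2 * Real.exp (-u z)
      + ‖G z - h' z‖ ^ 2 * Real.exp (-u z))
    nlinarith
  -- comparison with other entire functions
  have hcmp : ∀ h'' : (Fin m → ℂ) → ℂ, Differentiable ℂ h'' → L2 U u h'' → ∀ i,
      nrm Set.univ (ψ i) (fun z => G z - h i z) ≤ nrm U u (fun z => G z - h'' z) := by
    intro h'' hd'' hL'' i
    have h1 := nrm_min (hψc i) (hGi i).1 (hhd i) (hhL i) (horth i) hd''
      (cmp_weight hU (hψc i) (huψ i) hL'').1
    refine h1.trans (cmp_weight hU (hψc i) (huψ i) ?_).2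
    have e1 := (L2_U_iff hU _ _).1 hG
    have e2 := (L2_U_iff hU _ _).1 hL''
    rw [L2_U_iff hU]
    refine ⟨e1.1.sub e2.1, ?_⟩
    refine ((e1.2.add e2.2).const_mul 2).mono'
      (((e1.1.sub e2.1).norm.pow 2).mul hum) (Eventually.of_forall fun z => ?_)
    rw [Real.norm_eq_abs, abs_of_nonneg (by positivity)]
    have h3 : ‖G z - h'' z‖ ≤ ‖G z‖ + ‖h'' z‖ := norm_sub_le _ _
    have h5 : ‖G z - h'' z‖ ^ 2 ≤ 2 * ‖G z‖ ^ 2 + 2 * ‖h'' z‖ ^ 2 := by
      nlinarith [sq_nonneg (‖G z‖ - ‖h'' z‖), norm_nonneg (h'' z), norm_nonneg (G z),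
        norm_nonneg (G z - h'' z)]
    have hpos : 0 < Real.exp (-u z) := Real.exp_pos _
    show ‖G z - h'' z‖ ^ 2 * Real.exp (-u z) ≤ 2 * (‖G z‖ ^ 2 * Real.exp (-u z)
      + ‖h'' z‖ ^ 2 * Real.exp (-u z))
    nlinarith
  refine ⟨fun j => w (Sum.inl j), fun k j => w (Sum.inr (k, j)), h', σ, hσ, hh', hlimσ, hh'L,
    fun j => hwL _, fun k j => ⟨hwL _, ?_⟩, ?_, ?_⟩
  · -- `WD`
    intro φ hφ
    have hK : IsCompact (tsupport φ) := hφ.2.1
    have hKU : tsupport φ ⊆ U := hφ.2.2
    have e1 : ∫ z in U, w (Sum.inl j) z * db k φ z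
        = ∫ z in tsupport φ, w (Sum.inl j) z * db k φ z :=
      set_int_K hUm hKU fun z hz => by rw [db_zero hz, mul_zero]
    have e2 : ∫ z in U, w (Sum.inr (k, j)) z * φ z
        = ∫ z in tsupport φ, w (Sum.inr (k, j)) z * φ z :=
      set_int_K hUm hKU fun z hz => by rw [image_eq_zero_of_notMem_tsupport hz, mul_zero]
    rw [e1, e2]
    have t1 := hw _ hKU hK (db k φ) (memLp_cont hK (cont_db hφ.1).continuousOn) (Sum.inl j)
    have t2 := hw _ hKU hK φ (memLp_cont hK hφ.1.continuous.continuousOn) (Sum.inr (k, j))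
    refine tendsto_nhds_unique t1 (t2.neg.congr fun i => ?_)
    have h1 := (hγ (σ i) k j).2 φ ⟨hφ.1, hφ.2.1, Set.subset_univ _⟩
    have e3 : ∫ z in Set.univ, v (σ i) j z * db k φ z
        = ∫ z in tsupport φ, v (σ i) j z * db k φ z :=
      set_int_K MeasurableSet.univ (Set.subset_univ _)
        fun z hz => by rw [db_zero hz, mul_zero]
    have e4 : ∫ z in Set.univ, γ (σ i) k j z * φ z
        = ∫ z in tsupport φ, γ (σ i) k j z * φ z :=
      set_int_K MeasurableSet.univ (Set.subset_univ _)
        fun z hz => by rw [image_eq_zero_of_notMem_tsupport hz, mul_zero]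
    rw [e3, e4] at h1
    exact h1.symm
  · -- `WT`
    intro φ hφ
    have hK : IsCompact (tsupport φ) := hφ.2.1
    have hKU : tsupport φ ⊆ U := hφ.2.2
    obtain ⟨b, hb⟩ : ∃ b, ∀ z ∈ tsupport φ, b ≤ u z := by
      obtain ⟨C, hC⟩ := hK.exists_bound_of_continuousOn (huc.mono hKU)
      exact ⟨-C, fun z hz => (abs_le.1 (hC z hz)).1⟩
    have hexp := exp_unif (hcσ _ hKU hK).1 hb (fun i z hz => huψ _ z (hKU hz)) 1 one_pos
    simp only [one_mul] at hexp
    obtain ⟨B, hB⟩ := hVK _ hKU hK
    have hterm : ∀ j, Tendsto (fun i => inn Set.univ (ψ (σ i)) (v (σ i) j) (db j φ)) atTop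
        (𝓝 (inn U u (w (Sum.inl j)) (db j φ))) := by
      intro j
      have t1 := weak_weight hK (fun i => V (σ i) (Sum.inl j)) (w (Sum.inl j))
        (fun i => by
          obtain ⟨B0, hB0⟩ := hKb _ hK
          exact memLp_of_sq ((L2_iff _ _).1 (hVL (σ i) (Sum.inl j))).1.restrict
            (loc_bound (hVL (σ i) (Sum.inl j)) hK.measurableSet (hB0 _)).1) B
        ((hσ.tendsto_atTop.eventually hB).mono fun i hi => (hi _).2)
        (fun φ' hφ' => hw _ hKU hK φ' hφ' (Sum.inl j))
        (fun i z => Real.exp (-ψ (σ i) z)) (fun z => Real.exp (-u z)) hexp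
        (fun i => by
          have := hψc (σ i)
          fun_prop)
        (Real.continuous_exp.comp_continuousOn (huc.mono hKU).neg)
        (fun z => star (db j φ z)) (memLp_cont hK (cont_db hφ.1).star.continuousOn)
      have e1 : inn U u (w (Sum.inl j)) (db j φ)
          = ∫ z in tsupport φ, w (Sum.inl j) z * (star (db j φ z) * (Real.exp (-u z) : ℂ)) := by
        unfold inn
        rw [set_int_K hUm hKU fun z hz => by
          rw [db_zero hz, star_zero, mul_zero, zero_mul]]
        simp only [mul_assoc]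
      rw [e1]
      refine t1.congr fun i => ?_
      unfold inn
      rw [set_int_K MeasurableSet.univ (Set.subset_univ (tsupport φ)) fun z hz => by
          rw [db_zero hz, star_zero, mul_zero, zero_mul]]
      simp only [mul_assoc]
      rfl
    have hsum : Tendsto (fun i => ∑ j, inn Set.univ (ψ (σ i)) (v (σ i) j) (db j φ)) atTop
        (𝓝 (∑ j, inn U u (w (Sum.inl j)) (db j φ))) := tendsto_finsetSum _ fun j _ => hterm j
    -- the left side
    have hleft : Tendsto (fun i => inn Set.univ (ψ (σ i)) (fun z => G z - h (σ i) z) φ) atTop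
        (𝓝 (inn U u (fun z => G z - h' z) φ)) := by
      obtain ⟨Cφ, hCφ⟩ := hK.exists_bound_of_continuousOn hφ.1.continuous.continuousOn
      obtain ⟨R, hR⟩ := hK.isBounded.exists_norm_le
      obtain ⟨BH, hBH⟩ := hhK (Metric.closedBall 0 (R + 1)) (isCompact_closedBall _ _)
      have hGK : IntegrableOn (fun z => ‖G z‖ ^ 2) (tsupport φ) := by
        obtain ⟨B0, hB0⟩ := hKb _ hK
        exact (loc_bound (hGi 0).1 hK.measurableSet (hB0 0)).1
      have hGm : AEStronglyMeasurable G volume := ((L2_U_iff hU _ _).1 hG).1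
      have hpi : 0 < Real.pi ^ m := by positivity
      have hHb : ∀ i, ∀ z ∈ tsupport φ, ‖h i z‖ ^ 2 ≤ BH / Real.pi ^ m := by
        intro i z hz
        rw [le_div_iff₀ hpi, mul_comm]
        exact sup_bound hSUP (hhd i) R BH (hBH i) z (hR z hz)
      have e1 : inn U u (fun z => G z - h' z) φ = ∫ z in tsupport φ,
          (G z - h' z) * star (φ z) * (Real.exp (-u z) : ℂ) := by
        unfold inn
        exact set_int_K hUm hKU fun z hz => by
          rw [image_eq_zero_of_notMem_tsupport hz, star_zero, mul_zero, zero_mul]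
      rw [e1]
      have e2 : ∀ i, inn Set.univ (ψ (σ i)) (fun z => G z - h (σ i) z) φ
          = ∫ z in tsupport φ, (G z - h (σ i) z) * star (φ z)
            * (Real.exp (-ψ (σ i) z) : ℂ) := by
        intro i
        unfold inn
        exact set_int_K MeasurableSet.univ (Set.subset_univ _) fun z hz => by
          rw [image_eq_zero_of_notMem_tsupport hz, star_zero, mul_zero, zero_mul]
      simp only [e2]
      refine tendsto_integral_of_dominated_convergence
        (fun z => (‖G z‖ ^ 2 + (2 + BH / Real.pi ^ m)) * |Cφ| * Real.exp (-b)) ?_ ?_ ?_ ?_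
      · intro i
        have hm1 : AEStronglyMeasurable (fun z => (Real.exp (-ψ (σ i) z) : ℂ)) volume := by
          have h1 : Continuous (fun z => (Real.exp (-ψ (σ i) z) : ℂ)) := by
            have := hψc (σ i)
            fun_prop
          exact h1.aestronglyMeasurable
        exact (((hGm.sub (hhd _).continuous.aestronglyMeasurable).mul
          hφ.1.continuous.star.aestronglyMeasurable).mul hm1).restrict
      · have hconst : IntegrableOn (fun _ : Fin m → ℂ => (2 + BH / Real.pi ^ m)) (tsupport φ) :=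
          continuousOn_const.integrableOn_compact hK
        exact ((hGK.add hconst).mul_const _).mul_const _
      · intro i
        refine (ae_restrict_iff' hK.measurableSet).2 (Eventually.of_forall fun z hz => ?_)
        rw [norm_mul, norm_mul, norm_star, Complex.norm_real, Real.norm_eq_abs,
          abs_of_pos (Real.exp_pos _)]
        have h1 : Real.exp (-ψ (σ i) z) ≤ Real.exp (-b) :=
          Real.exp_le_exp.2 (by linarith [hb z hz, huψ (σ i) z (hKU hz)])
        have h2 : ‖φ z‖ ≤ |Cφ| := (hCφ z hz).trans (le_abs_self _)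
        have h3 : ‖G z - h (σ i) z‖ ≤ ‖G z‖ ^ 2 + (2 + BH / Real.pi ^ m) := by
          have h4 := norm_sub_le (G z) (h (σ i) z)
          have h5 := hHb (σ i) z hz
          nlinarith [sq_nonneg (‖G z‖ - 1), sq_nonneg (‖h (σ i) z‖ - 1), sq_nonneg ‖G z‖,
            norm_nonneg (G z), norm_nonneg (h (σ i) z)]
        have h6 : 0 ≤ ‖G z‖ ^ 2 + (2 + BH / Real.pi ^ m) := (norm_nonneg _).trans h3
        exact mul_le_mul (mul_le_mul h3 h2 (norm_nonneg _) h6) h1 (Real.exp_pos _).le
          (mul_nonneg h6 (abs_nonneg _))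
      · refine (ae_restrict_iff' hK.measurableSet).2 (Eventually.of_forall fun z hz => ?_)
        have h1 : Tendsto (fun i => (Real.exp (-ψ (σ i) z) : ℂ)) atTop
            (𝓝 (Real.exp (-u z) : ℂ)) := by
          refine (Complex.continuous_ofReal.tendsto _).comp ?_
          exact (Real.continuous_exp.tendsto _).comp (hψlim z (hKU hz)).neg
        exact ((tendsto_const_nhds.sub (hlimσ z)).mul tendsto_const_nhds).mul h1
    refine tendsto_nhds_unique (hleft.congr fun i => ?_) hsum
    exact (hh (σ i)).2.2.1 φ ⟨hφ.1, hφ.2.1, Set.subset_univ _⟩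
  · have hpos0 : ∀ z ∈ U, ∀ ξ, 0 ≤ hf (hes u z) ξ := by
      intro z hz ξ
      by_cases hξ : ξ = 0
      · rw [hξ, hf_zero]
      · exact ((hPd z hz).2 ξ hξ).le
    have hsumeq : ∀ z, ∑ j, ∑ k, ‖w (Sum.inr (k, j)) z‖ ^ 2
        = ∑ x : Fin m × Fin m, ‖w (Sum.inr x) z‖ ^ 2 := by
      intro z
      rw [Fintype.sum_prod_type, Finset.sum_comm]
    have hN : ∀ i, nrm Set.univ (ψ i) (fun z => G z - h i z) ≤ nrm U u (fun z => G z - h' z) :=
      hcmp h' hh' hh'L
    have hF0 : ∀ z ∈ U, 0 ≤ (∑ j, ∑ k, ‖w (Sum.inr (k, j)) z‖ ^ 2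
        + hf (hes u z) (fun j => w (Sum.inl j) z)) * Real.exp (-u z) := by
      intro z hz
      refine mul_nonneg (add_nonneg ?_ (hpos0 z hz _)) (Real.exp_pos _).le
      exact Finset.sum_nonneg fun j _ => Finset.sum_nonneg fun k _ => by positivity
    have hFK : ∀ K ⊆ U, IsCompact K →
        IntegrableOn (fun z => (∑ j, ∑ k, ‖w (Sum.inr (k, j)) z‖ ^ 2
          + hf (hes u z) (fun j => w (Sum.inl j) z)) * Real.exp (-u z)) K ∧
        ∫ z in K, (∑ j, ∑ k, ‖w (Sum.inr (k, j)) z‖ ^ 2
          + hf (hes u z) (fun j => w (Sum.inl j) z)) * Real.exp (-u z)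
          ≤ nrm U u (fun z => G z - h' z) := by
      intro K hKU hK
      obtain ⟨b, hb⟩ : ∃ b, ∀ z ∈ K, b ≤ u z := by
        obtain ⟨C, hC⟩ := hK.exists_bound_of_continuousOn (huc.mono hKU)
        exact ⟨-C, fun z hz => (abs_le.1 (hC z hz)).1⟩
      have hHc : ∀ j k, ContinuousOn (fun z => hes u z j k) K := fun j k =>
        (hes_cont hCAL hUo hu j k).mono hKU
      have hwm : ∀ q, AEStronglyMeasurable (w q) (volume.restrict K) := fun q =>
        (hwL q).1.mono_measure (Measure.restrict_mono hKU le_rfl)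
      have hwK : ∀ q, IntegrableOn (fun z => ‖w q z‖ ^ 2) K := fun q => (hwL q).2 K hKU hK
      have huK : AEStronglyMeasurable (fun z => Real.exp (-u z)) (volume.restrict K) :=
        hum.restrict
      constructor
      · -- integrability
        obtain ⟨CH, hCH⟩ : ∃ CH : ℝ, ∀ z ∈ K, ∑ j, ∑ k, ‖hes u z j k‖ ≤ CH := by
          have h1 : ContinuousOn (fun z => ∑ j, ∑ k, ‖hes u z j k‖) K :=
            continuousOn_finsetSum _ fun j _ => continuousOn_finsetSum _ fun k _ =>
              (hHc j k).norm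
          obtain ⟨C, hC⟩ := hK.exists_bound_of_continuousOn h1
          exact ⟨C, fun z hz => (le_abs_self _).trans (hC z hz)⟩
        have hdom : IntegrableOn (fun z => (∑ j, ∑ k, ‖w (Sum.inr (k, j)) z‖ ^ 2
            + |CH| * ∑ j, ‖w (Sum.inl j) z‖ ^ 2) * Real.exp (-b)) K := by
          refine Integrable.mul_const (Integrable.add ?_ (Integrable.const_mul ?_ _)) _
          · exact integrable_finsetSum _ fun j _ => integrable_finsetSum _ fun k _ => hwK _
          · exact integrable_finsetSum _ fun j _ => hwK _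
        refine hdom.mono' ?_ ?_
        · refine AEStronglyMeasurable.mul (AEStronglyMeasurable.add ?_ ?_) huK
          · exact Finset.aestronglyMeasurable_fun_sum _ fun j _ =>
              Finset.aestronglyMeasurable_fun_sum _ fun k _ => (hwm _).norm.pow 2
          · unfold hf
            refine Complex.continuous_re.comp_aestronglyMeasurable ?_
            refine Finset.aestronglyMeasurable_fun_sum _ fun j _ =>
              Finset.aestronglyMeasurable_fun_sum _ fun k _ => ?_
            exact (((hHc j k).aestronglyMeasurable hK.measurableSet).mul (hwm _)).mul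
              (hwm _).star
        · refine (ae_restrict_iff' hK.measurableSet).2 (Eventually.of_forall fun z hz => ?_)
          rw [Real.norm_eq_abs, abs_of_nonneg (hF0 z (hKU hz))]
          have h1 : Real.exp (-u z) ≤ Real.exp (-b) :=
            Real.exp_le_exp.2 (by linarith [hb z hz])
          have h2 : hf (hes u z) (fun j => w (Sum.inl j) z)
              ≤ |CH| * ∑ j, ‖w (Sum.inl j) z‖ ^ 2 := by
            have h3 := (le_abs_self _).trans (hf_abs_le (hes u z) (fun j => w (Sum.inl j) z))
            have h4 : ‖(fun j => w (Sum.inl j) z)‖ ^ 2 ≤ ∑ j, ‖w (Sum.inl j) z‖ ^ 2 := by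
              rcases Nat.eq_zero_or_pos m with hm | hm
              · subst hm
                have : (fun j : Fin 0 => w (Sum.inl j) z) = 0 := funext fun j => j.elim0
                rw [this]
                simp
              · have hS0 : 0 ≤ ∑ j, ‖w (Sum.inl j) z‖ ^ 2 :=
                  Finset.sum_nonneg fun j _ => by positivity
                have hp : ‖(fun j => w (Sum.inl j) z)‖
                    ≤ Real.sqrt (∑ j, ‖w (Sum.inl j) z‖ ^ 2) := by
                  refine (pi_norm_le_iff_of_nonneg (Real.sqrt_nonneg _)).2 fun j => ?_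
                  refine Real.le_sqrt_of_sq_le ?_
                  exact Finset.single_le_sum (f := fun j => ‖w (Sum.inl j) z‖ ^ 2)
                    (fun j _ => by positivity) (Finset.mem_univ j)
                calc ‖(fun j => w (Sum.inl j) z)‖ ^ 2
                    ≤ Real.sqrt (∑ j, ‖w (Sum.inl j) z‖ ^ 2) ^ 2 :=
                      pow_le_pow_left₀ (norm_nonneg _) hp 2
                  _ = ∑ j, ‖w (Sum.inl j) z‖ ^ 2 := Real.sq_sqrt hS0
            refine h3.trans (mul_le_mul ((hCH z hz).trans (le_abs_self _)) h4 (by positivity)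
              (abs_nonneg _))
          have h5 : 0 ≤ ∑ j, ∑ k, ‖w (Sum.inr (k, j)) z‖ ^ 2 :=
            Finset.sum_nonneg fun j _ => Finset.sum_nonneg fun k _ => by positivity
          refine mul_le_mul (add_le_add le_rfl h2) h1 (Real.exp_pos _).le ?_
          exact add_nonneg h5 (mul_nonneg (abs_nonneg _)
            (Finset.sum_nonneg fun j _ => by positivity))
      · -- lower semicontinuity
        let e := Fintype.equivFin (Fin m ⊕ (Fin m × Fin m))
        obtain ⟨B, hB⟩ := hVK K hKU hK
        have hB' := hσ.tendsto_atTop.eventually hB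
        rw [eventually_atTop] at hB'
        obtain ⟨i0, hi0⟩ := hB'
        let E : ℕ → (Fin m → ℂ) → ℝ := fun i z => Real.exp (-(1 / 2 * ψ (σ i) z))
        let E0 : (Fin m → ℂ) → ℝ := fun z => Real.exp (-(1 / 2 * u z))
        have hEc : ∀ i, ContinuousOn (E i) K := fun i => by
          have := hψc (σ i)
          have h1 : Continuous (fun z => Real.exp (-(1 / 2 * ψ (σ i) z))) := by fun_prop
          exact h1.continuousOn
        have hE0c : ContinuousOn E0 K :=
          Real.continuous_exp.comp_continuousOn ((continuousOn_const.mul (huc.mono hKU)).neg)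
        have hE2 : ∀ i z, E i z ^ 2 = Real.exp (-ψ (σ i) z) := by
          intro i z
          show Real.exp _ ^ 2 = _
          rw [← Real.exp_nat_mul]
          congr 1
          push_cast
          ring
        have hE02 : ∀ z, E0 z ^ 2 = Real.exp (-u z) := by
          intro z
          show Real.exp _ ^ 2 = _
          rw [← Real.exp_nat_mul]
          congr 1
          push_cast
          ring
        have hVm : ∀ i q, MemLp (V (σ i) q) 2 (volume.restrict K) := by
          intro i q
          obtain ⟨B0, hB0⟩ := hKb _ hK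
          exact memLp_of_sq ((L2_iff _ _).1 (hVL (σ i) q)).1.restrict
            (loc_bound (hVL (σ i) q) hK.measurableSet (hB0 _)).1
        have hwm2 : ∀ q, MemLp (w q) 2 (volume.restrict K) := fun q =>
          memLp_of_sq (hwm q) (hwK q)
        have hEV : ∀ i q, MemLp (fun z => (E (i + i0) z : ℂ) * V (σ (i + i0)) (e.symm q) z) 2
            (volume.restrict K) := by
          intro i q
          have h1 := memLp_mul_real hK (hVm (i + i0) (e.symm q)) (hEc (i + i0))
          have e1 : (fun z => (E (i + i0) z : ℂ) * V (σ (i + i0)) (e.symm q) z)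
              = fun z => V (σ (i + i0)) (e.symm q) z * (E (i + i0) z : ℂ) :=
            funext fun z => mul_comm _ _
          rw [e1]
          exact h1
        have hlsc := hLSC m _ K hK
          (fun i q z => (E (i + i0) z : ℂ) * V (σ (i + i0)) (e.symm q) z)
          (fun q z => (E0 z : ℂ) * w (e.symm q) z)
          (fun i z => (Blk (hes (ψ (σ (i + i0))) z)).submatrix e.symm e.symm)
          (fun z => (Blk (hes u z)).submatrix e.symm e.symm)
          (fun i z _ => psd_blk e (hPsd _ z))
          (fun z hz => psd_blk e ⟨(hPd z (hKU hz)).1, hpos0 z (hKU hz)⟩)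
          ?_ ?_ ?_ ?_ ?_ ?_ ?_ (nrm U u (fun z => G z - h' z)) ?_
        · refine le_trans (le_of_eq ?_) hlsc
          refine integral_congr_ae (Eventually.of_forall fun z => ?_)
          simp only
          rw [hf_reindex, hfg_blk]
          simp only [Equiv.symm_apply_apply]
          rw [hf_smul, hE02, hsumeq]
          have h1 : ∑ x : Fin m × Fin m, ‖(E0 z : ℂ) * w (Sum.inr x) z‖ ^ 2
              = (∑ x : Fin m × Fin m, ‖w (Sum.inr x) z‖ ^ 2) * Real.exp (-u z) := by
            rw [Finset.sum_mul]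
            refine Finset.sum_congr rfl fun x _ => ?_
            rw [norm_mul, mul_pow, Complex.norm_real, Real.norm_eq_abs, sq_abs, hE02]
            ring
          rw [h1]
          ring
        · intro i a b
          show ContinuousOn (fun z => Blk (hes (ψ (σ (i + i0))) z) (e.symm a) (e.symm b)) K
          rcases e.symm a with j | x <;> rcases e.symm b with k | y
          · exact (hes_cont hCAL isOpen_univ (hψ (σ (i + i0))).contDiffOn j k).mono
              (Set.subset_univ _)
          · exact continuousOn_const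
          · exact continuousOn_const
          · exact continuousOn_const
        · intro a b
          show ContinuousOn (fun z => Blk (hes u z) (e.symm a) (e.symm b)) K
          rcases e.symm a with j | x <;> rcases e.symm b with k | y
          · exact hHc j k
          · exact continuousOn_const
          · exact continuousOn_const
          · exact continuousOn_const
        · intro a b
          show TendstoUniformlyOn (fun i z => Blk (hes (ψ (σ (i + i0))) z) (e.symm a) (e.symm b))
            (fun z => Blk (hes u z) (e.symm a) (e.symm b)) atTop K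
          have hct : ∀ c : ℂ, TendstoUniformlyOn (fun (_ : ℕ) (_ : Fin m → ℂ) => c)
              (fun _ => c) atTop K := fun c s hs =>
            Eventually.of_forall fun i z _ => mem_uniformity_of_eq hs rfl
          rcases e.symm a with j | x <;> rcases e.symm b with k | y
          · intro s hs
            exact (tendsto_add_atTop_nat i0).eventually ((hcσ K hKU hK).2 j k s hs)
          · exact hct 0
          · exact hct 0
          · exact hct _
        · exact hEV
        · intro q
          have h1 := memLp_mul_real hK (hwm2 (e.symm q)) hE0c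
          have e1 : (fun z => (E0 z : ℂ) * w (e.symm q) z)
              = fun z => w (e.symm q) z * (E0 z : ℂ) := funext fun z => mul_comm _ _
          rw [e1]
          exact h1
        · refine ⟨Real.exp (-b) * B, fun i q => ?_⟩
          have h2 := hi0 (i + i0) (Nat.le_add_left _ _) (e.symm q)
          have h3 : ∀ z ∈ K, ‖(E (i + i0) z : ℂ) * V (σ (i + i0)) (e.symm q) z‖ ^ 2
              ≤ Real.exp (-b) * ‖V (σ (i + i0)) (e.symm q) z‖ ^ 2 := by
            intro z hz
            rw [norm_mul, mul_pow, Complex.norm_real, Real.norm_eq_abs, sq_abs, hE2]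
            refine mul_le_mul_of_nonneg_right (Real.exp_le_exp.2 ?_) (by positivity)
            linarith [hb z hz, huψ (σ (i + i0)) z (hKU hz)]
          calc ∫ z in K, ‖(E (i + i0) z : ℂ) * V (σ (i + i0)) (e.symm q) z‖ ^ 2
              ≤ ∫ z in K, Real.exp (-b) * ‖V (σ (i + i0)) (e.symm q) z‖ ^ 2 :=
                setIntegral_mono_on (sq_of_memLp (hEV i q)) (h2.1.const_mul _)
                  hK.measurableSet h3
            _ = Real.exp (-b) * ∫ z in K, ‖V (σ (i + i0)) (e.symm q) z‖ ^ 2 :=
                integral_const_mul _ _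
            _ ≤ Real.exp (-b) * B :=
                mul_le_mul_of_nonneg_left h2.2 (Real.exp_pos _).le
        · intro φ hφ q
          have hexp := exp_unif (hcσ _ hKU hK).1 hb (fun i z hz => huψ _ z (hKU hz)) (1 / 2)
            (by norm_num)
          have t1 := weak_weight hK (fun i => V (σ i) (e.symm q)) (w (e.symm q))
            (fun i => hVm i _) B
            ((hσ.tendsto_atTop.eventually hB).mono fun i hi => (hi _).2)
            (fun φ' hφ' => hw _ hKU hK φ' hφ' _) E E0 hexp hEc hE0c φ hφ
          have t2 := (tendsto_add_atTop_iff_nat i0).2 t1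
          have e1 : ∫ z in K, (E0 z : ℂ) * w (e.symm q) z * φ z
              = ∫ z in K, w (e.symm q) z * (φ z * (E0 z : ℂ)) :=
            integral_congr_ae (Eventually.of_forall fun z => by
              show _ * _ * _ = _ * (_ * _)
              ring)
          rw [e1]
          refine t2.congr fun i => ?_
          exact integral_congr_ae (Eventually.of_forall fun z => by
              show _ * (_ * _) = _ * _ * _
              ring)
        · refine Eventually.of_forall fun i => ?_
          have e1 : ∀ z, hf ((Blk (hes (ψ (σ (i + i0))) z)).submatrix e.symm e.symm)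
              (fun q => (E (i + i0) z : ℂ) * V (σ (i + i0)) (e.symm q) z)
              = T (σ (i + i0)) z * Real.exp (-ψ (σ (i + i0)) z) := by
            intro z
            rw [hf_reindex, hfg_blk]
            simp only [Equiv.symm_apply_apply]
            have h1 : ∑ x : Fin m × Fin m, ‖(E (i + i0) z : ℂ) * V (σ (i + i0)) (Sum.inr x) z‖ ^ 2
                = (∑ x : Fin m × Fin m, ‖γ (σ (i + i0)) x.1 x.2 z‖ ^ 2)
                  * Real.exp (-ψ (σ (i + i0)) z) := by
              rw [Finset.sum_mul]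
              refine Finset.sum_congr rfl fun x _ => ?_
              rw [norm_mul, mul_pow, Complex.norm_real, Real.norm_eq_abs, sq_abs, hE2]
              exact mul_comm _ _
            rw [hf_smul, hE2, h1]
            show _ = (_ + _) * _
            rw [add_mul, mul_comm]
            rfl
          simp only [e1]
          exact (setIntegral_le_integral (hTint _).1 (Eventually.of_forall fun z =>
            mul_nonneg (hT0 _ z) (Real.exp_pos _).le)).trans ((hTint _).2.trans (hN _))
    have hmain := exhaust hUo hF0 hFK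
    refine ⟨hmain.1, hmain.2, fun h'' hd'' hL'' => ?_⟩
    have h1 := (hfat _ fun i => hcmp h'' hd'' hL'' (σ i)).2
    rw [nrm_U hU]
    exact h1

end Pool.Agent.Helper36.KP
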